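import Pool.Agent.H94.ND.Defs

/-!
# Rank of an edge set (span of the vectors `e_u + e_v` over `ZMod 2`)

Owner: helper45. Statements are the interface for `Base.lean` (helper56).
-/

set_option linter.unusedSectionVars false

namespace Pool.Agent.H94.ND

open SimpleGraph Module Submodule

variable {V : Type} [Finite V]

open Classical in
/-- the vector of an edge. -/
noncomputable def vec : Sym2 V → (V → ZMod 2) :=
  Sym2.lift ⟨fun u v => Pi.single u 1 + Pi.single v 1, fun u v => add_comm _ _⟩

/-- rank of an edge set. -/
noncomputable def r (X : Finset (Sym2 V)) : ℕ :=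
  finrank (ZMod 2) (span (ZMod 2) (vec '' (X : Set (Sym2 V))))

/-- the finite set of the edges. -/
noncomputable def ed (H : SimpleGraph V) : Finset (Sym2 V) := (Set.toFinite H.edgeSet).toFinset

theorem mem_ed {H : SimpleGraph V} {e : Sym2 V} : e ∈ ed H ↔ e ∈ H.edgeSet := by
  simp [ed]

theorem card_ed (H : SimpleGraph V) : (ed H).card = H.edgeSet.ncard := by
  rw [ed, Set.ncard_eq_toFinset_card _ (Set.toFinite _)]

theorem coe_ed (H : SimpleGraph V) : (ed H : Set (Sym2 V)) = H.edgeSet := by
  simp [ed]

theorem r_empty : r (∅ : Finset (Sym2 V)) = 0 := by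
  simp [r]

theorem r_mono {X Y : Finset (Sym2 V)} (h : X ⊆ Y) : r X ≤ r Y := by
  have : Fintype V := Fintype.ofFinite V
  exact Submodule.finrank_mono (span_mono (Set.image_mono (by exact_mod_cast h)))

open Classical in
theorem r_insert (e : Sym2 V) (X : Finset (Sym2 V)) : r (insert e X) ≤ r X + 1 := by
  have : Fintype V := Fintype.ofFinite V
  unfold r
  rw [Finset.coe_insert, Set.image_insert_eq, Submodule.span_insert]
  have h1 := Submodule.finrank_add_le_finrank_add_finrank (span (ZMod 2) {vec e})
    (span (ZMod 2) (vec '' (X : Set (Sym2 V))))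
  have h2 : finrank (ZMod 2) (span (ZMod 2) ({vec e} : Set (V → ZMod 2))) ≤ 1 := by
    refine (finrank_span_le_card _).trans ?_
    simp
  omega

open Classical in
theorem r_submod (X Y : Finset (Sym2 V)) : r (X ∪ Y) + r (X ∩ Y) ≤ r X + r Y := by
  have : Fintype V := Fintype.ofFinite V
  unfold r
  have h1 := Submodule.finrank_sup_add_finrank_inf_eq
    (span (ZMod 2) (vec '' (X : Set (Sym2 V)))) (span (ZMod 2) (vec '' (Y : Set (Sym2 V))))
  have h2 : span (ZMod 2) (vec '' ((X ∪ Y : Finset (Sym2 V)) : Set (Sym2 V))) =
      span (ZMod 2) (vec '' (X : Set (Sym2 V))) ⊔ span (ZMod 2) (vec '' (Y : Set (Sym2 V))) := by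
    rw [Finset.coe_union, Set.image_union, Submodule.span_union]
  have h3 : span (ZMod 2) (vec '' ((X ∩ Y : Finset (Sym2 V)) : Set (Sym2 V))) ≤
      span (ZMod 2) (vec '' (X : Set (Sym2 V))) ⊓ span (ZMod 2) (vec '' (Y : Set (Sym2 V))) := by
    refine le_inf (span_mono (Set.image_mono ?_)) (span_mono (Set.image_mono ?_))
    · exact_mod_cast Finset.inter_subset_left
    · exact_mod_cast Finset.inter_subset_right
  have h4 := Submodule.finrank_mono h3
  rw [h2]
  omega

open Classical in
theorem vec_mk (u v : V) : vec s(u, v) = Pi.single u 1 + Pi.single v 1 := rfl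

theorem zmod2_add_self (x : V → ZMod 2) : x + x = 0 := by
  funext i
  have h : ∀ y : ZMod 2, y + y = 0 := by decide
  simpa using h (x i)

open Classical in
/-- reachability gives membership in the span. -/
theorem mem_span_of_reachable (H : SimpleGraph V) {u v : V} (h : H.Reachable u v) :
    (Pi.single u 1 + Pi.single v 1 : V → ZMod 2) ∈ span (ZMod 2) (vec '' H.edgeSet) := by
  obtain ⟨w⟩ := h
  induction w with
  | nil => rw [zmod2_add_self]; exact Submodule.zero_mem _
  | @cons a b c hab w ih =>
    have h1 : (Pi.single a 1 + Pi.single b 1 : V → ZMod 2) ∈ span (ZMod 2) (vec '' H.edgeSet) :=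
      subset_span ⟨s(a, b), hab, rfl⟩
    have h2 := Submodule.add_mem _ h1 ih
    have h3 : (Pi.single a 1 + Pi.single b 1 + (Pi.single b 1 + Pi.single c 1) : V → ZMod 2) =
        Pi.single a 1 + Pi.single c 1 := by
      have h4 := zmod2_add_self (Pi.single b 1 : V → ZMod 2)
      calc (Pi.single a 1 + Pi.single b 1 + (Pi.single b 1 + Pi.single c 1) : V → ZMod 2)
          = Pi.single a 1 + (Pi.single b 1 + Pi.single b 1) + Pi.single c 1 := by abel
        _ = Pi.single a 1 + Pi.single c 1 := by rw [h4, add_zero]
    rwa [h3] at h2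

open Classical in
/-- membership in the span gives reachability. -/
theorem reachable_of_mem_span (H : SimpleGraph V) {u v : V}
    (h : (Pi.single u 1 + Pi.single v 1 : V → ZMod 2) ∈ span (ZMod 2) (vec '' H.edgeSet)) :
    H.Reachable u v := by
  have : Fintype V := Fintype.ofFinite V
  by_contra hn
  let f : (V → ZMod 2) →ₗ[ZMod 2] ZMod 2 :=
    ∑ w ∈ Finset.univ.filter (fun w => H.Reachable u w), LinearMap.proj w
  have hf : ∀ a : V, f (Pi.single a 1) = if H.Reachable u a then 1 else 0 := by
    intro a
    simp only [f, LinearMap.sum_apply, LinearMap.proj_apply]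
    rw [Finset.sum_filter]
    by_cases ha : H.Reachable u a
    · rw [if_pos ha, Finset.sum_eq_single a]
      · simp [ha]
      · intro b _ hb
        simp [hb]
      · simp
    · rw [if_neg ha]
      apply Finset.sum_eq_zero
      intro b _
      by_cases hb : H.Reachable u b
      · have : b ≠ a := fun h => ha (h ▸ hb)
        simp [this]
      · simp [hb]
  have hk : span (ZMod 2) (vec '' H.edgeSet) ≤ LinearMap.ker f := by
    rw [Submodule.span_le]
    rintro _ ⟨e, he, rfl⟩
    induction e using Sym2.ind with
    | _ a b =>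
      rw [SetLike.mem_coe, LinearMap.mem_ker, vec_mk, map_add, hf, hf]
      have hab : H.Adj a b := he
      by_cases ha : H.Reachable u a
      · have hb : H.Reachable u b := ha.trans hab.reachable
        rw [if_pos ha, if_pos hb]
        decide
      · have hb : ¬ H.Reachable u b := fun hb => ha (hb.trans hab.symm.reachable)
        rw [if_neg ha, if_neg hb]
        decide
  have h1 := hk h
  rw [LinearMap.mem_ker, map_add, hf, hf, if_pos (Reachable.refl u), if_neg hn] at h1
  exact absurd h1 (by decide)

open Classical in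
theorem linearIndependent_iff_r (H : SimpleGraph V) :
    LinearIndependent (ZMod 2) (fun e : ed H => vec e.1) ↔ r (ed H) = (ed H).card := by
  rw [linearIndependent_iff_card_eq_finrank_span, Fintype.card_coe, eq_comm]
  have h : Set.range (fun e : ed H => vec e.1) = vec '' (ed H : Set (Sym2 V)) := by
    ext x
    simp
  rw [h]
  rfl

open Classical in
theorem image_compl (H : SimpleGraph V) (e : ed H) :
    (fun e : ed H => vec e.1) '' (Set.univ \ {e}) = vec '' (H.deleteEdges {e.1}).edgeSet := by
  ext x
  constructor
  · rintro ⟨f, hf, rfl⟩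
    refine ⟨f.1, ?_, rfl⟩
    rw [SimpleGraph.edgeSet_deleteEdges]
    refine ⟨mem_ed.1 f.2, fun h => hf.2 (Subtype.ext h)⟩
  · rintro ⟨f, hf, rfl⟩
    rw [SimpleGraph.edgeSet_deleteEdges] at hf
    refine ⟨⟨f, mem_ed.2 hf.1⟩, ⟨trivial, fun h => hf.2 ?_⟩, rfl⟩
    have h' : (⟨f, mem_ed.2 hf.1⟩ : ed H) = e := h
    rw [← h']
    rfl

theorem isAcyclic_of_r (H : SimpleGraph V) (h : r (ed H) = (ed H).card) : H.IsAcyclic := by
  classical
  rw [← linearIndependent_iff_r] at h
  rw [isAcyclic_iff_forall_isBridge]
  intro e he
  induction e using Sym2.ind with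
  | _ a b =>
    rw [isBridge_iff]
    intro hr
    have h1 := mem_span_of_reachable _ hr
    have h2 := (linearIndependent_iff_notMem_span.1 h) ⟨s(a, b), mem_ed.2 he⟩
    apply h2
    rw [image_compl]
    exact h1

theorem r_of_isAcyclic (H : SimpleGraph V) (h : H.IsAcyclic) : r (ed H) = (ed H).card := by
  classical
  rw [← linearIndependent_iff_r, linearIndependent_iff_notMem_span]
  rintro ⟨e, he⟩ hm
  rw [image_compl] at hm
  rw [isAcyclic_iff_forall_isBridge] at h
  induction e using Sym2.ind with
  | _ a b =>
    have h1 := h (mem_ed.1 he)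
    rw [isBridge_iff] at h1
    exact h1 (reachable_of_mem_span _ hm)

theorem reach_of_r (H Z : SimpleGraph V) (hle : H ≤ Z) (h : r (ed H) = r (ed Z)) {u v : V}
    (huv : Z.Reachable u v) : H.Reachable u v := by
  classical
  have : Fintype V := Fintype.ofFinite V
  have h1 : span (ZMod 2) (vec '' H.edgeSet) = span (ZMod 2) (vec '' Z.edgeSet) := by
    apply Submodule.eq_of_le_of_finrank_eq
    · exact span_mono (Set.image_mono (edgeSet_mono hle))
    · have := h
      unfold r at this
      rwa [coe_ed, coe_ed] at this
  apply reachable_of_mem_span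
  rw [h1]
  exact mem_span_of_reachable _ huv

theorem card_le_r (G : SimpleGraph V) (k : ℕ)
    (hd : ∀ A : Set V, A.Nonempty → eIn G A ≤ (k + 1) * (A.ncard - 1))
    (X : Finset (Sym2 V)) (hX : X ⊆ ed G) : X.card ≤ (k + 1) * r X := by
  classical
  have : Fintype V := Fintype.ofFinite V
  set H : SimpleGraph V := fromEdgeSet (X : Set (Sym2 V)) with hH
  have hadj : ∀ a b, H.Adj a b ↔ s(a, b) ∈ X := by
    intro a b
    rw [hH, fromEdgeSet_adj]
    refine ⟨fun h => h.1, fun h => ⟨h, ?_⟩⟩
    have : G.Adj a b := mem_ed.1 (hX h)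
    exact this.ne
  have hes : H.edgeSet = (X : Set (Sym2 V)) := by
    ext e
    induction e using Sym2.ind with
    | _ a b => rw [mem_edgeSet, hadj]; rfl
  let comp : V → H.ConnectedComponent := fun v => H.connectedComponentMk v
  let root : V → V := fun v => (comp v).out
  have hroot : ∀ v, H.Reachable v (root v) := by
    intro v
    have : comp (root v) = comp v := Quot.out_eq _
    exact (ConnectedComponent.eq.1 this).symm
  have hroot2 : ∀ v, root (root v) = root v := by
    intro v
    have : comp (root v) = comp v := Quot.out_eq _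
    simp only [root] at this ⊢
    rw [this]
  -- the non-roots
  let N : Finset V := Finset.univ.filter (fun v => root v ≠ v)
  have hli : LinearIndependent (ZMod 2)
      (fun v : N => (Pi.single v.1 1 + Pi.single (root v.1) 1 : V → ZMod 2)) := by
    rw [Fintype.linearIndependent_iff]
    intro g hg i
    have h1 := congrFun hg i.1
    simp only [Finset.sum_apply, Pi.smul_apply, Pi.add_apply, smul_eq_mul, Pi.zero_apply] at h1
    rw [Finset.sum_eq_single i] at h1
    · have hi : root i.1 ≠ i.1 := (Finset.mem_filter.1 i.2).2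
      rw [Pi.single_eq_same, Pi.single_eq_of_ne hi.symm, add_zero, mul_one] at h1
      exact h1
    · intro j _ hj
      have h2 : i.1 ≠ j.1 := fun h => hj (Subtype.ext h.symm)
      have h3 : i.1 ≠ root j.1 := by
        intro h
        have h4 : root i.1 ≠ i.1 := (Finset.mem_filter.1 i.2).2
        apply h4
        rw [h, hroot2]
      rw [Pi.single_eq_of_ne h2, Pi.single_eq_of_ne h3, add_zero, mul_zero]
    · simp
  have hN : N.card ≤ r X := by
    have h1 := linearIndependent_iff_card_eq_finrank_span.1 hli
    rw [Fintype.card_coe] at h1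
    rw [h1]
    unfold r
    rw [Set.finrank]
    apply Submodule.finrank_mono
    rw [Submodule.span_le]
    rintro _ ⟨v, rfl⟩
    rw [← hes]
    exact mem_span_of_reachable H (hroot v.1)
  -- count by components
  have h1 : X.card = ∑ c : H.ConnectedComponent, (X.filter (fun e => comp e.out.1 = c)).card :=
    Finset.card_eq_sum_card_fiberwise (fun e _ => Finset.mem_univ _)
  have h2 : N.card = ∑ c : H.ConnectedComponent, (N.filter (fun v => comp v = c)).card :=
    Finset.card_eq_sum_card_fiberwise (fun e _ => Finset.mem_univ _)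
  refine le_trans ?_ (Nat.mul_le_mul_left (k + 1) hN)
  rw [h1, h2, Finset.mul_sum]
  apply Finset.sum_le_sum
  intro c _
  have hc : comp c.out = c := Quot.out_eq c
  have h3 := hd {v | comp v = c} ⟨c.out, hc⟩
  have h4 : (X.filter (fun e => comp e.out.1 = c)).card ≤ eIn G {v | comp v = c} := by
    unfold eIn
    rw [← Set.ncard_coe_finset]
    apply Set.ncard_le_ncard _ (Set.toFinite _)
    intro e he
    rw [Finset.mem_coe, Finset.mem_filter] at he
    refine ⟨mem_ed.1 (hX he.1), ?_⟩
    have h5 : s(e.out.1, e.out.2) = e := Quot.out_eq e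
    have h6 : H.Adj e.out.1 e.out.2 := by
      rw [hadj, h5]
      exact he.1
    intro v hv
    rw [← h5, Sym2.mem_iff] at hv
    rcases hv with hv | hv
    · rw [hv]; exact he.2
    · rw [hv]
      have : comp e.out.2 = comp e.out.1 := ConnectedComponent.eq.2 h6.symm.reachable
      exact this.trans he.2
  have h7 : {v | comp v = c}.ncard - 1 = (N.filter (fun v => comp v = c)).card := by
    have h8 : {v | comp v = c} = ((insert c.out (N.filter (fun v => comp v = c)) : Finset V) :
        Set V) := by
      ext v
      simp only [Set.mem_ofPred_eq, Finset.coe_insert, Finset.coe_filter, Set.mem_insert_iff,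
        N, Finset.mem_filter, Finset.mem_univ, true_and, root]
      constructor
      · intro hv
        by_cases hvc : v = c.out
        · exact Or.inl hvc
        · refine Or.inr ⟨?_, hv⟩
          rw [hv]
          exact fun h => hvc h.symm
      · rintro (hv | hv)
        · rw [hv]; exact hc
        · exact hv.2
    have h9 : c.out ∉ N.filter (fun v => comp v = c) := by
      intro h
      rw [Finset.mem_filter] at h
      have h10 := (Finset.mem_filter.1 h.1).2
      apply h10
      simp only [root]
      rw [hc]
    rw [h8, Set.ncard_coe_finset, Finset.card_insert_of_notMem h9]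
    omega
  rw [h7] at h3
  exact h4.trans h3

end Pool.Agent.H94.ND
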