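import Mathlib

/-!
# The matroid union theorem for monotone submodular functions with unit increase
-/

namespace Pool.Agent.H94.ND

variable {E ι : Type} [DecidableEq E] [DecidableEq ι]

/-- the rank functions of a family (not normalised). -/
structure RF (r : ι → Finset E → ℕ) : Prop where
  mono : ∀ i {X Y : Finset E}, X ⊆ Y → r i X ≤ r i Y
  unit : ∀ i e X, r i (insert e X) ≤ r i X + 1
  sub : ∀ i X Y, r i (X ∪ Y) + r i (X ∩ Y) ≤ r i X + r i Y

/-- contraction of `e` in the rank function `j`. -/
def con (r : ι → Finset E → ℕ) (j : ι) (e : E) (i : ι) (X : Finset E) : ℕ :=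
  if i = j then r j (insert e X) else r i X

theorem con_self (r : ι → Finset E → ℕ) (j : ι) (e : E) (X : Finset E) :
    con r j e j X = r j (insert e X) := by simp [con]

theorem con_ne (r : ι → Finset E → ℕ) {j i : ι} (h : i ≠ j) (e : E) (X : Finset E) :
    con r j e i X = r i X := by simp [con, h]

theorem RF.con {r : ι → Finset E → ℕ} (h : RF r) (j : ι) (e : E) : RF (con r j e) := by
  refine ⟨?_, ?_, ?_⟩
  · intro i X Y hXY
    by_cases hi : i = j
    · subst hi
      rw [con_self, con_self]
      exact h.mono _ (Finset.insert_subset_insert _ hXY)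
    · rw [con_ne r hi, con_ne r hi]
      exact h.mono _ hXY
  · intro i a X
    by_cases hi : i = j
    · subst hi
      rw [con_self, con_self, Finset.insert_comm]
      exact h.unit _ _ _
    · rw [con_ne r hi, con_ne r hi]
      exact h.unit _ _ _
  · intro i X Y
    by_cases hi : i = j
    · subst hi
      rw [con_self, con_self, con_self, con_self, Finset.insert_union_distrib,
        Finset.insert_inter_distrib]
      exact h.sub _ _ _
    · rw [con_ne r hi, con_ne r hi, con_ne r hi, con_ne r hi]
      exact h.sub _ _ _

theorem sum_con [Fintype ι] (r : ι → Finset E → ℕ) (j : ι) (e : E) (X : Finset E) :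
    ∑ i, con r j e i X + r j X = ∑ i, r i X + r j (insert e X) := by
  rw [← Finset.add_sum_erase _ _ (Finset.mem_univ j), ← Finset.add_sum_erase Finset.univ
    (fun i => r i X) (Finset.mem_univ j), con_self]
  have : ∑ i ∈ Finset.univ.erase j, con r j e i X = ∑ i ∈ Finset.univ.erase j, r i X :=
    Finset.sum_congr rfl (fun i hi => con_ne r (Finset.ne_of_mem_erase hi) e X)
  rw [this]
  ring

theorem union_aux [Fintype ι] [Nonempty ι] (n : ℕ) : ∀ (I : Finset E), I.card = n →
    ∀ (r : ι → Finset E → ℕ), RF r →
    (∀ X ⊆ I, X.card + ∑ i, r i ∅ ≤ ∑ i, r i X) →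
    ∃ f : E → ι, ∀ i, r i (I.filter (fun e => f e = i)) =
      r i ∅ + (I.filter (fun e => f e = i)).card := by
  induction n with
  | zero =>
    intro I hI r hr _
    rw [Finset.card_eq_zero] at hI
    subst hI
    exact ⟨fun _ => Classical.arbitrary ι, fun i => by simp⟩
  | succ n ih =>
    intro I hI r hr hc
    have hne : I.Nonempty := by
      rw [← Finset.card_pos]; omega
    obtain ⟨e, he⟩ := hne
    have hI' : (I.erase e).card = n := by
      rw [Finset.card_erase_of_mem he]; omega
    by_cases hex : ∃ j, r j {e} = r j ∅ + 1 ∧
        ∀ X ⊆ I.erase e, X.card + ∑ i, con r j e i ∅ ≤ ∑ i, con r j e i X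
    · obtain ⟨j, hj, hcj⟩ := hex
      obtain ⟨f, hf⟩ := ih (I.erase e) hI' (con r j e) (hr.con j e) hcj
      refine ⟨Function.update f e j, fun i => ?_⟩
      by_cases hi : i = j
      · subst hi
        have h1 : I.filter (fun x => Function.update f e i x = i) =
            insert e ((I.erase e).filter (fun x => f x = i)) := by
          ext x
          simp only [Finset.mem_filter, Finset.mem_insert, Finset.mem_erase]
          by_cases hx : x = e
          · subst hx
            simp [he]
          · simp [hx]
        have h2 := hf i
        rw [con_self, con_self] at h2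
        have h3 : e ∉ (I.erase e).filter (fun x => f x = i) := by simp
        rw [h1, Finset.card_insert_of_notMem h3, h2]
        have h4 : insert e (∅ : Finset E) = {e} := rfl
        rw [h4, hj]
        ring
      · have h1 : I.filter (fun x => Function.update f e j x = i) =
            (I.erase e).filter (fun x => f x = i) := by
          ext x
          simp only [Finset.mem_filter, Finset.mem_erase]
          by_cases hx : x = e
          · subst hx
            simp [Ne.symm hi]
          · simp [hx]
        have h2 := hf i
        rw [con_ne r hi, con_ne r hi] at h2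
        rw [h1, h2]
    · exfalso
      have key : ∀ j, ∃ Z ⊆ I.erase e, Z.card + ∑ i, r i ∅ = ∑ i, r i Z ∧
          r j (insert e Z) = r j Z := by
        intro j
        by_cases hj : r j {e} = r j ∅ + 1
        · have h1 : ¬ ∀ X ⊆ I.erase e, X.card + ∑ i, con r j e i ∅ ≤ ∑ i, con r j e i X :=
            fun h => hex ⟨j, hj, h⟩
          push Not at h1
          obtain ⟨X, hX, hlt⟩ := h1
          have h2 := sum_con r j e X
          have h3 := sum_con r j e ∅
          have h4 : insert e (∅ : Finset E) = {e} := rfl
          rw [h4, hj] at h3
          have h5 := hc X (hX.trans (Finset.erase_subset _ _))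
          have h6 := hr.mono j (Finset.subset_insert e X)
          refine ⟨X, hX, ?_, ?_⟩ <;> omega
        · refine ⟨∅, by simp, by simp, ?_⟩
          have h4 : insert e (∅ : Finset E) = {e} := rfl
          have h5 := hr.unit j e ∅
          have h6 := hr.mono j (Finset.empty_subset (insert e ∅))
          rw [h4] at h5 h6 ⊢
          omega
      choose Z hZ1 hZ2 hZ3 using key
      -- the union of tight sets is tight
      have htight : ∀ s : Finset ι, (s.biUnion Z).card + ∑ i, r i ∅ = ∑ i, r i (s.biUnion Z) := by
        intro s
        induction s using Finset.induction_on with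
        | empty => simp
        | @insert a s ha ihs =>
          rw [Finset.biUnion_insert]
          set Y := s.biUnion Z with hY
          have hYI : Y ⊆ I := by
            rw [hY]
            exact Finset.biUnion_subset.2 (fun i _ => (hZ1 i).trans (Finset.erase_subset _ _))
          have hZI : Z a ⊆ I := (hZ1 a).trans (Finset.erase_subset _ _)
          have h1 := hc (Z a ∪ Y) (Finset.union_subset hZI hYI)
          have h2 := hc (Z a ∩ Y) (Finset.inter_subset_left.trans hZI)
          have h3 : ∑ i, r i (Z a ∪ Y) + ∑ i, r i (Z a ∩ Y) ≤ ∑ i, r i (Z a) + ∑ i, r i Y := by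
            rw [← Finset.sum_add_distrib, ← Finset.sum_add_distrib]
            exact Finset.sum_le_sum (fun i _ => hr.sub i _ _)
          have h4 := Finset.card_union_add_card_inter (Z a) Y
          have h5 := hZ2 a
          omega
      set W := Finset.univ.biUnion Z with hW
      have hWI : W ⊆ I.erase e := by
        rw [hW]
        exact Finset.biUnion_subset.2 (fun i _ => hZ1 i)
      have heW : e ∉ W := fun h => by simpa using hWI h
      have h1 : ∀ j, r j (insert e W) ≤ r j W := by
        intro j
        have hZW : Z j ⊆ W := by
          rw [hW]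
          exact Finset.subset_biUnion_of_mem Z (Finset.mem_univ j)
        have h2 := hr.sub j (insert e (Z j)) W
        have h3 : insert e (Z j) ∪ W = insert e W := by
          rw [Finset.insert_union, Finset.union_eq_right.2 hZW]
        have h4 : r j (Z j) ≤ r j (insert e (Z j) ∩ W) :=
          hr.mono j (Finset.subset_inter (Finset.subset_insert _ _) hZW)
        have h5 := hZ3 j
        rw [h3] at h2
        omega
      have h2 := hc (insert e W) (Finset.insert_subset he (hWI.trans (Finset.erase_subset _ _)))
      rw [Finset.card_insert_of_notMem heW] at h2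
      have h3 : ∑ i, r i (insert e W) ≤ ∑ i, r i W := Finset.sum_le_sum (fun i _ => h1 i)
      have h4 := htight Finset.univ
      rw [← hW] at h4
      omega

/-- **Matroid union**, for monotone submodular functions with unit increase (not normalised). -/
theorem union [Fintype ι] [Nonempty ι] (I : Finset E) (r : ι → Finset E → ℕ) (hr : RF r)
    (hc : ∀ X ⊆ I, X.card + ∑ i, r i ∅ ≤ ∑ i, r i X) :
    ∃ f : E → ι, ∀ i, r i (I.filter (fun e => f e = i)) =
      r i ∅ + (I.filter (fun e => f e = i)).card :=
  union_aux I.card I rfl r hr hc

end Pool.Agent.H94.ND
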