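import Pool.Agent.H94.ND.Defs
import Pool.Agent.H94.ND.Rank
import Pool.Agent.H94.ND.Union

/-!
# Matroid union: an optimal colouring and its tight edge set

(D) `m = max (card X - k r X)` over `X` inside `E(G)`, attained at `Z`. Use (A) with `k` copies of
    `r` and `min (r X) m` for the last colour (a truncation is submodular: omega). Then the last
    class has at most `m` edges and all classes are acyclic.
(E) for every valid colouring with at most `m` edges of the last colour:
    `card Z = sum_i card (Z inter class i) <= k r Z + card (Z inter F)`, so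
    `m <= card (Z inter F) <= card F <= m`: `F` is inside `Z`, and `card (Z inter class i) = r Z`
    for the other colours, so the span of `Z inter class i` is the span of `Z`.
-/

namespace Pool.Agent.H94.ND

open SimpleGraph

variable {V : Type} [Finite V]

theorem r_le_card (X : Finset (Sym2 V)) : r X ≤ X.card := by
  classical
  induction X using Finset.induction_on with
  | empty => rw [r_empty]; exact Nat.zero_le _
  | @insert a s ha ih =>
    rw [Finset.card_insert_of_notMem ha]
    exact (r_insert a s).trans (Nat.add_le_add_right ih 1)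

open Classical in
theorem ed_cl (G : SimpleGraph V) {k : ℕ} (φ : Sym2 V → Fin (k + 1)) (i : Fin (k + 1)) :
    ed (cl G φ i) = (ed G).filter (fun e => φ e = i) := by
  ext e
  rw [Finset.mem_filter, mem_ed, mem_ed]
  induction e using Sym2.ind with
  | _ a b => exact Iff.rfl

/-- the rank functions of the colours. -/
noncomputable def rho (k m : ℕ) (i : Fin (k + 1)) (X : Finset (Sym2 V)) : ℕ :=
  if i = Fin.last k then min (r X) m else r X

open Classical in
theorem rho_RF (k m : ℕ) : RF (E := Sym2 V) (rho k m) := by
  refine ⟨?_, ?_, ?_⟩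
  · intro i X Y h
    have h1 := r_mono h
    unfold rho
    split <;> omega
  · intro i e X
    have h1 := r_insert e X
    unfold rho
    split <;> omega
  · intro i X Y
    have h1 := r_submod X Y
    have h2 := r_mono (Finset.inter_subset_left (s₁ := X) (s₂ := Y))
    have h3 := r_mono (Finset.inter_subset_right (s₁ := X) (s₂ := Y))
    have h4 := r_mono (Finset.subset_union_left (s₁ := X) (s₂ := Y))
    have h5 := r_mono (Finset.subset_union_right (s₁ := X) (s₂ := Y))
    unfold rho
    split <;> omega

theorem sum_rho (k m : ℕ) (X : Finset (Sym2 V)) :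
    ∑ i : Fin (k + 1), rho k m i X = k * r X + min (r X) m := by
  rw [Fin.sum_univ_castSucc]
  have h1 : ∀ i : Fin k, rho k m i.castSucc X = r X := by
    intro i
    unfold rho
    rw [if_neg (Fin.castSucc_lt_last i).ne]
  have h2 : rho k m (Fin.last k) X = min (r X) m := by simp [rho]
  simp [h1, h2]

/-- an optimal colouring exists and all optimal colourings have a common tight edge set. -/
theorem base (G : SimpleGraph V) (k : ℕ)
    (hd : ∀ A : Set V, A.Nonempty → eIn G A ≤ (k + 1) * (A.ncard - 1)) :
    ∃ (Z : SimpleGraph V) (m : ℕ), Z ≤ G ∧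
      (∃ φ : Sym2 V → Fin (k + 1), Valid G φ ∧ nF G φ ≤ m) ∧
      ∀ φ : Sym2 V → Fin (k + 1), Valid G φ → nF G φ ≤ m →
        cl G φ (Fin.last k) ≤ Z ∧
        ∀ i, i ≠ Fin.last k → ∀ u v, Z.Reachable u v → (cl G φ i ⊓ Z).Reachable u v := by
  classical
  obtain ⟨Zs, hZs, hmax⟩ := Finset.exists_max_image (ed G).powerset
    (fun X => (X.card : ℤ) - k * r X) ⟨∅, Finset.empty_mem_powerset _⟩
  rw [Finset.mem_powerset] at hZs
  have h0 : (0 : ℤ) ≤ (Zs.card : ℤ) - k * r Zs := by
    have := hmax ∅ (Finset.empty_mem_powerset _)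
    simpa [r_empty] using this
  obtain ⟨m, hm⟩ : ∃ m : ℕ, (Zs.card : ℤ) - k * r Zs = m := ⟨_, (Int.toNat_of_nonneg h0).symm⟩
  have hcard : Zs.card = k * r Zs + m := by
    have : ((Zs.card : ℕ) : ℤ) = ((k * r Zs + m : ℕ) : ℤ) := by push_cast; linarith
    exact_mod_cast this
  have hle : ∀ X ⊆ ed G, X.card ≤ k * r X + m := by
    intro X hX
    have h1 := hmax X (Finset.mem_powerset.2 hX)
    have : ((X.card : ℕ) : ℤ) ≤ ((k * r X + m : ℕ) : ℤ) := by
      push_cast
      linarith
    exact_mod_cast this
  set Z : SimpleGraph V := fromEdgeSet (Zs : Set (Sym2 V)) with hZ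
  have hZadj : ∀ a b, Z.Adj a b ↔ s(a, b) ∈ Zs := by
    intro a b
    rw [hZ, fromEdgeSet_adj]
    refine ⟨fun h => h.1, fun h => ⟨h, ?_⟩⟩
    have : G.Adj a b := mem_ed.1 (hZs h)
    exact this.ne
  have hZG : Z ≤ G := by
    intro a b h
    exact mem_ed.1 (hZs ((hZadj a b).1 h))
  have hedZ : ed Z = Zs := by
    ext e
    rw [mem_ed]
    induction e using Sym2.ind with
    | _ a b => exact hZadj a b
  refine ⟨Z, m, hZG, ?_, ?_⟩
  · obtain ⟨f, hf⟩ := union (ed G) (rho k m) (rho_RF k m) (by
      intro X hX
      rw [sum_rho, sum_rho, r_empty]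
      have h1 := hle X hX
      have h2 := card_le_r G k hd X hX
      rw [Nat.succ_mul] at h2
      simp only [Nat.mul_zero, Nat.zero_min, Nat.add_zero]
      rcases le_total (r X) m with h | h
      · rw [min_eq_left h]; exact h2
      · rw [min_eq_right h]; exact h1)
    refine ⟨f, ?_, ?_⟩
    · intro i
      apply isAcyclic_of_r
      rw [ed_cl]
      have h1 := hf i
      have h2 := r_le_card ((ed G).filter (fun e => f e = i))
      have h3 : rho k m i (∅ : Finset (Sym2 V)) = 0 := by simp [rho, r_empty]
      rw [h3, Nat.zero_add] at h1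
      have h4 : rho k m i ((ed G).filter (fun e => f e = i)) ≤
          r ((ed G).filter (fun e => f e = i)) := by
        unfold rho
        split
        · exact min_le_left _ _
        · exact le_rfl
      omega
    · unfold nF
      rw [← card_ed, ed_cl]
      have h1 := hf (Fin.last k)
      have h3 : rho k m (Fin.last k) (∅ : Finset (Sym2 V)) = 0 := by simp [rho, r_empty]
      rw [h3, Nat.zero_add] at h1
      rw [← h1]
      simp [rho]
  · intro φ hφ hF
    have hed : ∀ i, ed (cl G φ i ⊓ Z) = Zs.filter (fun e => φ e = i) := by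
      intro i
      ext e
      rw [Finset.mem_filter, mem_ed]
      induction e using Sym2.ind with
      | _ a b =>
        rw [mem_edgeSet, inf_adj, cl_adj, hZadj]
        refine ⟨fun h => ⟨h.2, h.1.2⟩, fun h => ⟨⟨mem_ed.1 (hZs h.1), h.2⟩, h.1⟩⟩
    have hr : ∀ i, (Zs.filter (fun e => φ e = i)).card ≤ r Zs := by
      intro i
      have h1 : (cl G φ i ⊓ Z).IsAcyclic := (hφ i).anti inf_le_left
      have h2 := r_of_isAcyclic _ h1
      rw [hed] at h2
      rw [← h2]
      exact r_mono (Finset.filter_subset _ _)
    have hsum : Zs.card = ∑ i : Fin (k + 1), (Zs.filter (fun e => φ e = i)).card :=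
      Finset.card_eq_sum_card_fiberwise (fun e _ => Finset.mem_univ _)
    rw [Fin.sum_univ_castSucc] at hsum
    have hsubl : Zs.filter (fun e => φ e = Fin.last k) ⊆ ed (cl G φ (Fin.last k)) := by
      rw [ed_cl]
      exact Finset.filter_subset_filter _ hZs
    have hl : (Zs.filter (fun e => φ e = Fin.last k)).card ≤ (ed (cl G φ (Fin.last k))).card :=
      Finset.card_le_card hsubl
    have hF' : (ed (cl G φ (Fin.last k))).card ≤ m := by rw [card_ed]; exact hF
    have hsum2 : ∑ i : Fin k, (Zs.filter (fun e => φ e = i.castSucc)).card ≤ k * r Zs := by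
      have := Finset.sum_le_card_nsmul (Finset.univ : Finset (Fin k))
        (fun i : Fin k => (Zs.filter (fun e => φ e = i.castSucc)).card) (r Zs)
        (fun i _ => hr i.castSucc)
      simpa using this
    constructor
    · have h1 : Zs.filter (fun e => φ e = Fin.last k) = ed (cl G φ (Fin.last k)) :=
        Finset.eq_of_subset_of_card_le hsubl (by omega)
      intro a b hab
      rw [hZadj]
      have h2 : s(a, b) ∈ ed (cl G φ (Fin.last k)) := mem_ed.2 hab
      rw [← h1] at h2
      exact (Finset.mem_filter.1 h2).1
    · intro i hi u v huv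
      apply reach_of_r (cl G φ i ⊓ Z) Z inf_le_right _ huv
      have h1 : (cl G φ i ⊓ Z).IsAcyclic := (hφ i).anti inf_le_left
      have h2 := r_of_isAcyclic _ h1
      rw [h2, hedZ]
      apply le_antisymm
      · rw [hed]; exact hr i
      · rw [hed]
        obtain ⟨j, rfl⟩ := Fin.exists_castSucc_eq.2 hi
        by_contra hlt
        push Not at hlt
        have h3 : ∑ i : Fin k, (Zs.filter (fun e => φ e = i.castSucc)).card <
            ∑ _i : Fin k, r Zs :=
          Finset.sum_lt_sum (fun i _ => hr i.castSucc) ⟨j, Finset.mem_univ _, hlt⟩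
        simp only [Finset.sum_const, Finset.card_univ, Fintype.card_fin, smul_eq_mul] at h3
        omega

end Pool.Agent.H94.ND
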