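import Pool.Agent.H94.ND.Pot

/-!
# The number of edges of a component of a forest
-/

set_option linter.unusedSectionVars false

namespace Pool.Agent.H94.ND

open SimpleGraph

variable {V : Type} [Fintype V]

/-- In a forest a component with at most `d + 1` vertices has at most `d` edges. -/
theorem comp_edges {B : SimpleGraph V} {d : ℕ} (hB : B.IsAcyclic)
    (h : ∀ u, rc B u ≤ d + 1) (c : B.ConnectedComponent) :
    c.toSimpleGraph.edgeSet.ncard ≤ d := by
  classical
  have h1 := (hB.isTree_connectedComponent c).card_edgeFinset
  obtain ⟨u, hu⟩ := c.exists_rep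
  have h2 : Fintype.card c = rc B u := by
    rw [← Nat.card_eq_fintype_card]
    have h3 : {w | B.Reachable u w} = c.supp := by
      ext w
      rw [ConnectedComponent.mem_supp_iff, ← hu]
      constructor
      · intro h4
        exact (ConnectedComponent.eq.2 (Reachable.symm h4))
      · intro h4
        exact (ConnectedComponent.eq.1 h4).symm
    unfold rc
    rw [h3]
    rfl
  have h4 : c.toSimpleGraph.edgeSet.ncard = c.toSimpleGraph.edgeFinset.card := by
    rw [Set.ncard_eq_toFinset_card']
    congr 1
  rw [h4]
  have := h u
  omega

end Pool.Agent.H94.ND
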