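import Pool.Agent.H94.ND.Ex

/-!
# The main argument

A colouring with few edges of the last colour, of minimal potential, has only components of the
last colour with at most `d + 1` vertices.
-/

set_option linter.unusedSectionVars false

namespace Pool.Agent.H94.ND

open SimpleGraph

variable {V : Type} [Fintype V]

theorem core (G Z : SimpleGraph V) (k d m : ℕ) (hZG : Z ≤ G)
    (hex : ∃ φ : Sym2 V → Fin (k + 1), Valid G φ ∧ nF G φ ≤ m)
    (hst : ∀ φ : Sym2 V → Fin (k + 1), Valid G φ → nF G φ ≤ m →
      cl G φ (Fin.last k) ≤ Z ∧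
      ∀ i, i ≠ Fin.last k → ∀ u v, Z.Reachable u v → (cl G φ i ⊓ Z).Reachable u v)
    (h1 : ∀ S : Set V, 2 ≤ S.ncard → eIn G S < (k + 1) * (S.ncard - 1))
    (h2 : ∀ S : Set V, d + 3 ≤ S.ncard → eIn G S + 2 < k * (S.ncard - 1) + S.ncard)
    (h3 : ∀ c, eIn Z {u | Z.Reachable c u} ≤ k * (rc Z c - 1) + 2 * d) :
    ∃ φ : Sym2 V → Fin (k + 1), Valid G φ ∧ ∀ v, rc (cl G φ (Fin.last k)) v ≤ d + 1 := by
  classical
  -- a colouring of minimal potential
  have hex' : ∃ n, ∃ φ : Sym2 V → Fin (k + 1), Valid G φ ∧ nF G φ ≤ m ∧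
      wt (cl G φ (Fin.last k)) = n := by
    obtain ⟨φ, h4, h5⟩ := hex
    exact ⟨_, φ, h4, h5, rfl⟩
  obtain ⟨φ, hv, hm, hwt⟩ := Nat.find_spec hex'
  have hopt : ∀ φ' : Sym2 V → Fin (k + 1), Valid G φ' → nF G φ' ≤ m →
      ¬ wt (cl G φ' (Fin.last k)) < wt (cl G φ (Fin.last k)) := by
    intro φ' h4 h5 h6
    exact Nat.find_min hex' (hwt ▸ h6) ⟨φ', h4, h5, rfl⟩
  refine ⟨φ, hv, ?_⟩
  by_contra hcon
  push Not at hcon
  obtain ⟨x0, hx0⟩ := hcon
  set F := cl G φ (Fin.last k) with hFdef
  have hF : F.IsAcyclic := hv _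
  obtain ⟨hFZ, hTZ⟩ := hst φ hv hm
  obtain ⟨c, hc0, hcen⟩ := centroid hF x0
  set N := rc F c with hN
  have hNd : d + 2 ≤ N := by
    have := rc_congr hc0
    omega
  -- the trees are connected on the component `C` of `Z`
  have hTc : ∀ i, i ≠ Fin.last k → ∀ v, Z.Reachable c v → (cl G φ i).Reachable v c := by
    intro i hi v hvc
    exact (hTZ i hi v c hvc.symm).mono inf_le_left
  -- re-entering edges belong to `Z`
  have hre : ∀ i, i ≠ Fin.last k → ∀ z w, Z.Reachable c z → (cl G φ i).Adj z w →
      (del (cl G φ i) z w).Reachable w c → Z.Reachable c w := by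
    intro i hi z w hz hzw hw
    by_contra hcw
    have h4 : (cl G φ i ⊓ Z).Reachable z c := hTZ i hi z c hz.symm
    have h5 : cl G φ i ⊓ Z ≤ del (cl G φ i) z w := by
      intro a b hab
      rw [inf_adj] at hab
      rw [del_adj]
      refine ⟨hab.1, fun he => hcw ?_⟩
      have h6 : Z.Adj z w := by
        rw [← mem_edgeSet, ← he, mem_edgeSet]
        exact hab.2
      exact hz.trans (Adj.reachable h6)
    exact not_reach_del (hv i) hzw ((h4.mono h5).trans hw.symm)
  -- the sizes of three components inside `C`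
  have hsz0 : ∀ W : Set V, W ⊆ {u | Z.Reachable c u} → eIn F W ≤ 2 * d := by
    intro W hW
    have h4 := eIn_colours φ hZG {u | Z.Reachable c u} (eIn F W) (rc Z c - 1) (by
      refine le_trans ?_ (eIn_le_of_le (le_inf (le_refl _) hFZ) _)
      refine Set.ncard_le_ncard ?_ (Set.toFinite _)
      exact fun e he => ⟨he.1, fun v hv => hW (he.2 v hv)⟩) (by
      intro i hi
      have h5 := rc_le_eIn (cl G φ i ⊓ Z) c
      have h6 : {u | (cl G φ i ⊓ Z).Reachable c u} = {u | Z.Reachable c u} := by
        ext u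
        exact ⟨fun h => Reachable.mono inf_le_right h, fun h => hTZ i hi c u h⟩
      have h7 : rc (cl G φ i ⊓ Z) c = rc Z c := congrArg Set.ncard h6
      rw [h6, h7] at h5
      omega)
    have h5 := h3 c
    omega
  have hcls : ∀ x u, Z.Reachable c x → F.Reachable x u → Z.Reachable c u :=
    fun x u hx hu => hx.trans (hu.mono hFZ)
  have hsz3 : ∀ l w, Z.Reachable c l → Z.Reachable c w → ¬ F.Reachable c l →
      ¬ F.Reachable c w → ¬ F.Reachable l w → N + rc F l + rc F w ≤ 2 * d + 3 := by
    intro l w hl hw hcl hcw hlw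
    have h4 := hsz0 ({u | F.Reachable c u} ∪ ({u | F.Reachable l u} ∪ {u | F.Reachable w u})) (by
      rintro u (hu | hu | hu)
      · exact hcls c u (Reachable.refl _) hu
      · exact hcls l u hl hu
      · exact hcls w u hw hu)
    have hd1 : Disjoint {u | F.Reachable l u} {u | F.Reachable w u} := by
      rw [Set.disjoint_left]
      exact fun u h5 h6 => hlw (Reachable.trans h5 (Reachable.symm h6))
    have hd2 : Disjoint {u | F.Reachable c u} ({u | F.Reachable l u} ∪ {u | F.Reachable w u}) := by
      rw [Set.disjoint_left]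
      rintro u h5 (h6 | h6)
      · exact hcl (Reachable.trans h5 (Reachable.symm h6))
      · exact hcw (Reachable.trans h5 (Reachable.symm h6))
    have h5 := eIn_add (H := F) hd1 (Set.subset_union_left) (Set.subset_union_right)
    have h6 := eIn_add (H := F) hd2 (Set.subset_union_left) (Set.subset_union_right)
    have h7 := rc_le_eIn F c
    have h8 := rc_le_eIn F l
    have h9 := rc_le_eIn F w
    omega
  -- the centre is at the large side
  have hcross : ∀ z : V, ∀ U : Set V, F.Reachable c z → z ∈ U → c ∉ U →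
      ∃ y x, F.Adj x y ∧ y ∈ U ∧ x ∉ U ∧ (del F x y).Reachable y z ∧
        F.Reachable c x ∧ rc (del F x y) y ≤ rc (del F x y) x ∧
        rc (del F x y) x + rc (del F x y) y = N := by
    intro z U hz hzU hcU
    obtain ⟨y, x, h4, h5, h6, h7, h8⟩ := crossing hz.symm hzU hcU
    rw [del_comm] at h7 h8
    have h9 : F.Reachable c x := (h8.mono del_le).symm
    refine ⟨y, x, h4.symm, h5, h6, h7.symm, h9, hcen x y h4.symm h8, ?_⟩
    have h10 := rc_split hF h4.symm
    have h11 := rc_congr h9
    omega
  -- (1) an edge which enters `K` comes from a large component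
  have hlarge : ∀ i, i ≠ Fin.last k → ∀ z w, F.Reachable c z → ¬ F.Reachable c w →
      (cl G φ i).Adj z w → (del (cl G φ i) z w).Reachable w c → N ≤ 2 * rc F w := by
    intro i hi z w hz hw hzw hwc
    obtain ⟨y, x, hxy, hyU, hxU, hyz, hcx, hle, hsum⟩ :=
      hcross z {u | (del (cl G φ i) z w).Reachable z u} hz (Reachable.refl _)
        (fun h => not_reach_del (hv i) hzw (Reachable.trans h hwc.symm))
    by_contra hlt
    have hxw : ¬ F.Reachable x w := fun h => hw (hcx.trans h)
    have hlt' := wt_lt_near hF (w := w) hxy hyz hxw (by omega)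
    obtain ⟨φ', g1, g2, g3, -, -⟩ := exch hv hi hxy hzw (by
      intro h
      exact hxU (Reachable.trans hyU h.symm)) (by
      intro h
      exact hw (hz.trans (h.mono del_le)))
    exact hopt φ' g1 (g2.trans hm) (g3 ▸ hlt')
  -- there is an edge which enters `K`
  have hfirst : ∃ i, i ≠ Fin.last k ∧ ∃ z w, F.Reachable c z ∧ ¬ F.Reachable c w ∧
      (cl G φ i).Adj z w ∧ (del (cl G φ i) z w).Reachable w c := by
    by_contra hno
    push Not at hno
    have h4 := eIn_colours φ (le_refl G) {u | F.Reachable c u} (N - 1) (N - 1) (by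
      have h5 := rc_le_eIn F c
      have h6 := eIn_le_of_le (le_inf (le_refl F) (hFZ.trans hZG)) {u | F.Reachable c u}
      rw [← hFdef]
      omega) (by
      intro i hi
      have h5 : {u | F.Reachable c u}.ncard ≤ eIn (cl G φ i) {u | F.Reachable c u} + 1 := by
        refine le_eIn_of_conn (c := c) (Reachable.refl _) ?_
        intro v hv'
        by_contra hn
        obtain ⟨z, w, h6, h7, h8, h9⟩ :=
          reentry (hTc i hi v (hcls c v (Reachable.refl _) hv')) hv' hn
        exact hno i hi z w h7 h8 h6 h9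
      have h6 : cl G φ i ≤ cl G φ i ⊓ G := le_inf (le_refl _) (fun a b h => h.1)
      have h7 := eIn_le_of_le h6 {u | F.Reachable c u}
      have h8 : {u | F.Reachable c u}.ncard = N := rfl
      omega)
    have h5 := h1 {u | F.Reachable c u} (by
      have h8 : {u | F.Reachable c u}.ncard = N := rfl
      omega)
    have h8 : {u | F.Reachable c u}.ncard = N := rfl
    rw [h8] at h5
    have h9 : (k + 1) * (N - 1) = k * (N - 1) + (N - 1) := by ring
    omega
  obtain ⟨i0, hi0, z', l, hz'K, hlK, hz'l, hlc⟩ := hfirst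
  have hCz' : Z.Reachable c z' := hcls c z' (Reachable.refl _) hz'K
  have hCl : Z.Reachable c l := hre i0 hi0 z' l hCz' hz'l hlc
  have hl2 : N ≤ 2 * rc F l := hlarge i0 hi0 z' l hz'K hlK hz'l hlc
  -- uniqueness of the large component
  have huniq : ∀ w, Z.Reachable c w → ¬ F.Reachable c w → N ≤ 2 * rc F w → F.Reachable l w := by
    intro w hw hcw hw2
    by_contra hlw
    have h4 := hsz3 l w hCl hw hlK hcw hlw
    omega
  -- (2) the second entering edge
  have hsecond : ∃ i, i ≠ Fin.last k ∧ ∃ z w, (F.Reachable c z ∨ F.Reachable l z) ∧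
      ¬ (F.Reachable c w ∨ F.Reachable l w) ∧
      (cl G φ i).Adj z w ∧ (del (cl G φ i) z w).Reachable w c := by
    by_contra hno
    push Not at hno
    have hdj : Disjoint {u | F.Reachable c u} {u | F.Reachable l u} := by
      rw [Set.disjoint_left]
      exact fun u h5 h6 => hlK (Reachable.trans h5 (Reachable.symm h6))
    have hcard : ({u | F.Reachable c u} ∪ {u | F.Reachable l u}).ncard = N + rc F l := by
      rw [Set.ncard_union_eq hdj (Set.toFinite _) (Set.toFinite _)]
      rfl
    have hpl := rc_pos F l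
    have h4 := eIn_colours φ (le_refl G) ({u | F.Reachable c u} ∪ {u | F.Reachable l u})
      ((N - 1) + (rc F l - 1)) (N + rc F l - 1) (by
      have h5 := rc_le_eIn F c
      have h6 := rc_le_eIn F l
      have h7 := eIn_le_of_le (le_inf (le_refl F) (hFZ.trans hZG))
        ({u | F.Reachable c u} ∪ {u | F.Reachable l u})
      have h8 := eIn_add (H := F) hdj (Set.subset_union_left) (Set.subset_union_right)
      rw [← hFdef]
      omega) (by
      intro i hi
      have h5 : ({u | F.Reachable c u} ∪ {u | F.Reachable l u}).ncard ≤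
          eIn (cl G φ i) ({u | F.Reachable c u} ∪ {u | F.Reachable l u}) + 1 := by
        refine le_eIn_of_conn (c := c) (Or.inl (Reachable.refl _)) ?_
        intro v hv'
        by_contra hn
        have hCv : Z.Reachable c v := by
          rcases hv' with h6 | h6
          · exact hcls c v (Reachable.refl _) h6
          · exact hcls l v hCl h6
        obtain ⟨z, w, h6, h7, h8, h9⟩ := reentry (hTc i hi v hCv) hv' hn
        have h10 := hno i hi z w h7 (not_or.1 h8) h6
        exact h10 h9
      have h6 : cl G φ i ≤ cl G φ i ⊓ G := le_inf (le_refl _) (fun a b h => h.1)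
      have h7 := eIn_le_of_le h6 ({u | F.Reachable c u} ∪ {u | F.Reachable l u})
      omega)
    have h5 := h2 ({u | F.Reachable c u} ∪ {u | F.Reachable l u}) (by omega)
    rw [hcard] at h5
    omega
  obtain ⟨i, hi, z, w, hzA, hwA, hzw, hwc⟩ := hsecond
  rw [not_or] at hwA
  obtain ⟨hwK, hwL⟩ := hwA
  have hCz : Z.Reachable c z := by
    rcases hzA with h6 | h6
    · exact hcls c z (Reachable.refl _) h6
    · exact hcls l z hCl h6
  have hCw : Z.Reachable c w := hre i hi z w hCz hzw hwc
  have hzL : F.Reachable l z := by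
    rcases hzA with h6 | h6
    · exact absurd (huniq w hCw hwK (hlarge i hi z w h6 hwK hzw hwc)) hwL
    · exact h6
  have hzK : ¬ F.Reachable c z := fun h => hlK (h.trans hzL.symm)
  have hsz := hsz3 l w hCl hCw hlK hwK hwL
  have hszN : rc F l + rc F w < N := by omega
  have hzl := rc_congr hzL
  have hnzw : ¬ F.Reachable z w := fun h => hwL (hzL.trans h)
  -- (3) `K` does not meet the far side
  have hKU : ∀ a, F.Reachable c a → ¬ (del (cl G φ i) z w).Reachable z a := by
    intro a ha haU
    obtain ⟨y, x, hxy, hyU, hxU, hyz, hcx, hle, hsum⟩ :=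
      hcross a {u | (del (cl G φ i) z w).Reachable z u} ha haU
        (fun h => not_reach_del (hv i) hzw (Reachable.trans h hwc.symm))
    have hxz : ¬ F.Reachable x z := fun h => hzK (hcx.trans h)
    have hxw : ¬ F.Reachable x w := fun h => hwK (hcx.trans h)
    have hcx' := rc_congr hcx
    have hlt' := wt_lt_far hF hxy hxz hxw (by omega)
    obtain ⟨φ', g1, g2, g3, -, -⟩ := exch hv hi hxy hzw (by
      intro h
      exact hxU (Reachable.trans hyU h.symm)) (by
      intro h
      exact hnzw (h.mono del_le))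
    exact hopt φ' g1 (g2.trans hm) (g3 ▸ hlt')
  -- the exchange at the first entering edge
  obtain ⟨y, x, hxy, hyU, hxU, hyz, hcx, hle, hsum⟩ :=
    hcross z' {u | (del (cl G φ i0) z' l).Reachable z' u} hz'K (Reachable.refl _)
      (fun h => not_reach_del (hv i0) hz'l (Reachable.trans h hlc.symm))
  have hcx' := rc_congr hcx
  have hcy : F.Reachable c y := hcx.trans (Adj.reachable hxy)
  have hxl : ¬ F.Reachable x l := fun h => hlK (hcx.trans h)
  have hxz : ¬ F.Reachable x z := fun h => hzK (hcx.trans h)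
  have hxw : ¬ F.Reachable x w := fun h => hwK (hcx.trans h)
  have hz'nl : ¬ F.Reachable z' l := fun h => hlK (hz'K.trans h)
  obtain ⟨φ1, g1, g2, g3, g4, g5⟩ := exch hv hi0 hxy hz'l (by
    intro h
    exact hxU (Reachable.trans hyU h.symm)) (by
    intro h
    exact hz'nl (h.mono del_le))
  have hne1 : s(z', l) ≠ s(z, w) := by
    intro he
    have hm' : z' ∈ s(z, w) := he ▸ Sym2.mem_mk_left z' l
    rcases Sym2.mem_iff.1 hm' with h6 | h6
    · exact hzK (h6 ▸ hz'K)
    · exact hwK (h6 ▸ hz'K)
  -- the edge `zw` is still there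
  have hzw1 : (cl G φ1 i).Adj z w := by
    by_cases hii : i = i0
    · subst hii
      rw [g4, sup_adj]
      exact Or.inl (del_adj.2 ⟨hzw, fun h => hne1 h.symm⟩)
    · rw [g5 i hii hi]
      exact hzw
  -- (4) `l` is not on the far side
  have hlU : ¬ (del (cl G φ i) z w).Reachable z l := by
    intro hlU
    by_cases hii : i = i0
    · subst hii
      exact hKU z' hz'K (hlU.trans (Adj.reachable (del_adj.2 ⟨hz'l.symm, by
        rw [Sym2.eq_swap]
        exact hne1⟩)))
    · have hT1 : cl G φ1 i = cl G φ i := g5 i hii hi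
      have hF1 : (cl G φ1 (Fin.last k)).Adj z' l := by
        rw [g3, sup_adj, edge_adj]
        exact Or.inr ⟨Or.inl ⟨rfl, rfl⟩, hz'l.ne⟩
      have hle1 : del (cl G φ1 (Fin.last k)) z' l ≤ del F x y := by
        intro a b hab
        rw [del_adj, g3, sup_adj, edge_adj] at hab
        rcases hab with ⟨h6 | h6, h7⟩
        · exact h6
        · exact absurd (Sym2.eq_iff.2 h6.1) h7
      obtain ⟨φ2, k1, k2, k3, -, -⟩ := exch g1 hi hF1 hzw1 (by
        rw [hT1]
        intro h
        exact hKU z' hz'K (hlU.trans h.symm)) (by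
        intro h
        exact hnzw ((h.mono hle1).mono del_le))
      have hlt' := wt_lt_far hF hxy hxz hxw (by omega)
      have h6 : wt (cl G φ2 (Fin.last k)) ≤ wt (del F x y ⊔ edge z w) := by
        rw [k3]
        exact wt_mono (sup_le_sup_right hle1 _)
      exact hopt φ2 k1 ((k2.trans g2).trans hm) (lt_of_le_of_lt h6 hlt')
  -- (5) the double exchange
  obtain ⟨b, a, hba, hbU, haU, hzb, hal⟩ :=
    crossing (U := {u | (del (cl G φ i) z w).Reachable z u}) hzL.symm (Reachable.refl _) hlU
  rw [del_comm] at hzb hal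
  have hab : F.Adj a b := hba.symm
  have hla : F.Reachable l a := (hal.mono del_le).symm
  have hca : ¬ F.Reachable c a := fun h => hlK (h.trans hla.symm)
  have hxa : ¬ F.Reachable x a := fun h => hca (hcx.trans h)
  have haw : ¬ F.Reachable a w := fun h => hwL (hla.trans h)
  have hnab : ¬ (del (cl G φ i) z w).Reachable a b := fun h => haU (Reachable.trans hbU h.symm)
  have hla' := rc_congr hla
  have hnear : rc (del F a b) a ≤ rc F w := by
    by_contra hlt
    have hlt' := wt_lt_near hF hab hzb.symm haw (by omega)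
    obtain ⟨φ', k1, k2, k3, -, -⟩ := exch hv hi hab hzw hnab (by
      intro h
      exact hnzw (h.mono del_le))
    exact hopt φ' k1 (k2.trans hm) (k3 ▸ hlt')
  have hlt' := wt_lt_double hF hxy hab hxa hxw haw hal hzb.symm hyz (by omega) (by omega)
  have hF1 : (cl G φ1 (Fin.last k)).Adj a b := by
    rw [g3, sup_adj, del_adj]
    refine Or.inl ⟨hab, fun he => ?_⟩
    have hm' : a ∈ s(x, y) := he ▸ Sym2.mem_mk_left a b
    rcases Sym2.mem_iff.1 hm' with h6 | h6
    · exact hca (h6 ▸ hcx)
    · exact hca (h6 ▸ hcy)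
  obtain ⟨φ2, k1, k2, k3, -, -⟩ := exch g1 hi hF1 hzw1 (by
    intro h
    by_cases hii : i = i0
    · subst hii
      have hS : ∀ p q, (del (cl G φ1 i) z w).Adj p q →
          p ∈ {u | (del (cl G φ i) z w).Reachable z u} →
          q ∈ {u | (del (cl G φ i) z w).Reachable z u} := by
        intro p q hpq hp
        rw [del_adj, g4, sup_adj, edge_adj] at hpq
        rcases hpq with ⟨h6 | ⟨⟨h6, -⟩ | ⟨h6, -⟩, -⟩, h7⟩
        · exact cls_adj (del_adj.2 ⟨del_le h6, h7⟩) hp
        · exact absurd (h6 ▸ hp) (hKU x hcx)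
        · exact absurd (h6 ▸ hp) (hKU y hcy)
      exact haU (closed_reach hS h.symm hbU)
    · rw [g5 i hii hi] at h
      exact hnab h) (by
    intro h
    have hS : ∀ p q, (del (cl G φ1 (Fin.last k)) a b).Adj p q →
        p ∈ {u | (del F a b).Reachable b u} → q ∈ {u | (del F a b).Reachable b u} := by
      intro p q hpq hp
      rw [del_adj, g3, sup_adj, edge_adj] at hpq
      rcases hpq with ⟨h6 | ⟨⟨h6, -⟩ | ⟨h6, -⟩, -⟩, h7⟩
      · exact cls_adj (del_adj.2 ⟨del_le h6, h7⟩) hp
      · exfalso
        subst h6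
        exact hca ((hz'K.trans (Reachable.mono del_le hp).symm).trans (Adj.reachable hab).symm)
      · exfalso
        subst h6
        exact not_reach_del hF hab (hal.trans (Reachable.symm hp))
    have h6 : (del F a b).Reachable b w := closed_reach hS h hzb.symm
    exact haw ((Adj.reachable hab).trans (h6.mono del_le)))
  refine hopt φ2 k1 ((k2.trans g2).trans hm) ?_
  rw [k3, g3]
  exact hlt'

end Pool.Agent.H94.ND
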