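import Mathlib

/-!
# Colourings of the edges by `k + 1` colours: definitions

The last colour is the colour of the small forest.
-/

namespace Pool.Agent.H94.ND

open SimpleGraph

variable {V : Type}

/-- the class of the colour `i`. -/
def cl (G : SimpleGraph V) {k : ℕ} (φ : Sym2 V → Fin (k + 1)) (i : Fin (k + 1)) :
    SimpleGraph V where
  Adj u v := G.Adj u v ∧ φ s(u, v) = i
  symm := ⟨fun u v h => ⟨h.1.symm, by rw [Sym2.eq_swap]; exact h.2⟩⟩
  loopless := ⟨fun u h => G.loopless.irrefl u h.1⟩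

theorem cl_adj {G : SimpleGraph V} {k : ℕ} {φ : Sym2 V → Fin (k + 1)} {i : Fin (k + 1)}
    {u v : V} : (cl G φ i).Adj u v ↔ G.Adj u v ∧ φ s(u, v) = i := Iff.rfl

/-- all the classes are forests. -/
def Valid (G : SimpleGraph V) {k : ℕ} (φ : Sym2 V → Fin (k + 1)) : Prop :=
  ∀ i, (cl G φ i).IsAcyclic

/-- number of edges with the last colour. -/
noncomputable def nF (G : SimpleGraph V) {k : ℕ} (φ : Sym2 V → Fin (k + 1)) : ℕ :=
  (cl G φ (Fin.last k)).edgeSet.ncard

/-- number of edges of `H` inside `A`. -/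
noncomputable def eIn (H : SimpleGraph V) (A : Set V) : ℕ :=
  {e | e ∈ H.edgeSet ∧ ∀ v ∈ e, v ∈ A}.ncard

/-- number of vertices of the component of `v`. -/
noncomputable def rc (H : SimpleGraph V) (v : V) : ℕ := {u | H.Reachable v u}.ncard

end Pool.Agent.H94.ND
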