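import Pool.Agent.H94.ND.Pot

/-!
# Exchanges which decrease the potential
-/

set_option linter.unusedSectionVars false

namespace Pool.Agent.H94.ND

open SimpleGraph

variable {V : Type} [Fintype V]

theorem rc_mono {H H' : SimpleGraph V} (h : H ≤ H') (v : V) : rc H v ≤ rc H' v :=
  Set.ncard_le_ncard (fun _ hu => Reachable.mono h hu) (Set.toFinite _)

theorem wt_mono {H H' : SimpleGraph V} (h : H ≤ H') : wt H ≤ wt H' :=
  Finset.sum_le_sum fun v _ => Nat.pow_le_pow_right (by norm_num) (rc_mono h v)

theorem cls_adj {H : SimpleGraph V} {x a b : V} (h : H.Adj a b) (ha : H.Reachable x a) :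
    H.Reachable x b := ha.trans (Adj.reachable h)

/-- the new edge hangs the component of `w` on the side of `y`. -/
theorem wt_lt_near {F : SimpleGraph V} (hF : F.IsAcyclic) {x y z w : V} (hxy : F.Adj x y)
    (hyz : (del F x y).Reachable y z) (hxw : ¬ F.Reachable x w)
    (hsz : rc F w < rc (del F x y) x) : wt (del F x y ⊔ edge z w) < wt F := by
  have hsp := rc_split hF hxy
  have hp1 := rc_pos (del F x y) x
  have hp2 := rc_pos (del F x y) y
  have hxz : F.Reachable x z := (Adj.reachable hxy).trans (hyz.mono del_le)
  have hnr := not_reach_del hF hxy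
  apply wt_lt (x := x) (S := {u | F.Reachable x u} ∪ {u | F.Reachable w u})
  · intro a b hab ha
    exact ha.imp (cls_adj hab) (cls_adj hab)
  · exact Or.inl (Reachable.refl _)
  · intro a b hab ha
    rw [sup_adj, edge_adj] at hab
    rcases hab with hab | ⟨⟨h1, -⟩ | ⟨h1, -⟩, -⟩
    · exact del_le hab
    · exact absurd (Or.inl (h1 ▸ hxz)) ha
    · exact absurd (Or.inr (h1 ▸ Reachable.refl _)) ha
  · have hX2 : ∀ v, (del F x y).Reachable y v ∨ F.Reachable w v →
        ∃ X : Set V, v ∈ X ∧ (∀ a b, (del F x y ⊔ edge z w).Adj a b → a ∈ X → b ∈ X) ∧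
          X.ncard < rc F x := by
      intro v hv
      refine ⟨{u | (del F x y).Reachable y u} ∪ {u | F.Reachable w u}, hv, ?_, ?_⟩
      · intro a b hab ha
        rw [sup_adj, edge_adj] at hab
        rcases hab with hab | ⟨⟨-, h1⟩ | ⟨-, h1⟩, -⟩
        · exact ha.imp (cls_adj hab) (cls_adj (del_le hab))
        · exact Or.inr (h1 ▸ Reachable.refl _)
        · exact Or.inl (h1 ▸ hyz)
      · have h3 := Set.ncard_union_le {u | (del F x y).Reachable y u} {u | F.Reachable w u}
        have h4 : {u | (del F x y).Reachable y u}.ncard = rc (del F x y) y := rfl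
        have h5 : {u | F.Reachable w u}.ncard = rc F w := rfl
        omega
    rintro v (hv | hv)
    · rcases reach_cases (y := y) hv with h1 | h1
      · refine ⟨{u | (del F x y).Reachable x u}, h1, ?_, ?_⟩
        · intro a b hab ha
          rw [sup_adj, edge_adj] at hab
          rcases hab with hab | ⟨⟨h2, -⟩ | ⟨h2, -⟩, -⟩
          · exact cls_adj hab ha
          · exact absurd (Reachable.trans (h2 ▸ ha : (del F x y).Reachable x z) hyz.symm) hnr
          · exact absurd ((h2 ▸ ha : (del F x y).Reachable x w).mono del_le) hxw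
        · have h4 : {u | (del F x y).Reachable x u}.ncard = rc (del F x y) x := rfl
          omega
      · exact hX2 v (Or.inl h1)
    · exact hX2 v (Or.inr hv)
  · have h3 := Set.ncard_union_le {u | F.Reachable x u} {u | F.Reachable w u}
    have h4 : {u | F.Reachable x u}.ncard = rc F x := rfl
    have h5 : {u | F.Reachable w u}.ncard = rc F w := rfl
    omega

/-- the new edge joins two small components. -/
theorem wt_lt_far {F : SimpleGraph V} (hF : F.IsAcyclic) {x y z w : V} (hxy : F.Adj x y)
    (hxz : ¬ F.Reachable x z) (hxw : ¬ F.Reachable x w)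
    (hsz : rc F z + rc F w < rc F x) : wt (del F x y ⊔ edge z w) < wt F := by
  have hsp := rc_split hF hxy
  have hp1 := rc_pos (del F x y) x
  have hp2 := rc_pos (del F x y) y
  have hyz : ¬ F.Reachable y z := fun h => hxz ((Adj.reachable hxy).trans h)
  have hyw : ¬ F.Reachable y w := fun h => hxw ((Adj.reachable hxy).trans h)
  apply wt_lt (x := x)
    (S := {u | F.Reachable x u} ∪ ({u | F.Reachable z u} ∪ {u | F.Reachable w u}))
  · intro a b hab ha
    exact ha.imp (cls_adj hab) (Or.imp (cls_adj hab) (cls_adj hab))
  · exact Or.inl (Reachable.refl _)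
  · intro a b hab ha
    rw [sup_adj, edge_adj] at hab
    rcases hab with hab | ⟨⟨h1, -⟩ | ⟨h1, -⟩, -⟩
    · exact del_le hab
    · exact absurd (Or.inr (Or.inl (h1 ▸ Reachable.refl _))) ha
    · exact absurd (Or.inr (Or.inr (h1 ▸ Reachable.refl _))) ha
  · rintro v (hv | hv)
    · rcases reach_cases (y := y) hv with h1 | h1
      · refine ⟨{u | (del F x y).Reachable x u}, h1, ?_, ?_⟩
        · intro a b hab ha
          rw [sup_adj, edge_adj] at hab
          rcases hab with hab | ⟨⟨h2, -⟩ | ⟨h2, -⟩, -⟩
          · exact cls_adj hab ha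
          · exact absurd ((h2 ▸ ha : (del F x y).Reachable x z).mono del_le) hxz
          · exact absurd ((h2 ▸ ha : (del F x y).Reachable x w).mono del_le) hxw
        · have h4 : {u | (del F x y).Reachable x u}.ncard = rc (del F x y) x := rfl
          omega
      · refine ⟨{u | (del F x y).Reachable y u}, h1, ?_, ?_⟩
        · intro a b hab ha
          rw [sup_adj, edge_adj] at hab
          rcases hab with hab | ⟨⟨h2, -⟩ | ⟨h2, -⟩, -⟩
          · exact cls_adj hab ha
          · exact absurd ((h2 ▸ ha : (del F x y).Reachable y z).mono del_le) hyz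
          · exact absurd ((h2 ▸ ha : (del F x y).Reachable y w).mono del_le) hyw
        · have h4 : {u | (del F x y).Reachable y u}.ncard = rc (del F x y) y := rfl
          omega
    · refine ⟨{u | F.Reachable z u} ∪ {u | F.Reachable w u}, hv, ?_, ?_⟩
      · intro a b hab ha
        rw [sup_adj, edge_adj] at hab
        rcases hab with hab | ⟨⟨-, h1⟩ | ⟨-, h1⟩, -⟩
        · exact ha.imp (cls_adj (del_le hab)) (cls_adj (del_le hab))
        · exact Or.inr (h1 ▸ Reachable.refl _)
        · exact Or.inl (h1 ▸ Reachable.refl _)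
      · have h3 := Set.ncard_union_le {u | F.Reachable z u} {u | F.Reachable w u}
        have h4 : {u | F.Reachable z u}.ncard = rc F z := rfl
        have h5 : {u | F.Reachable w u}.ncard = rc F w := rfl
        omega
  · have h2 := Set.ncard_union_le {u | F.Reachable x u}
      ({u | F.Reachable z u} ∪ {u | F.Reachable w u})
    have h3 := Set.ncard_union_le {u | F.Reachable z u} {u | F.Reachable w u}
    have h4 : {u | F.Reachable z u}.ncard = rc F z := rfl
    have h5 : {u | F.Reachable w u}.ncard = rc F w := rfl
    have h6 : {u | F.Reachable x u}.ncard = rc F x := rfl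
    omega

/-- two exchanges at once. -/
theorem wt_lt_double {F : SimpleGraph V} (hF : F.IsAcyclic) {x y a b z w z' l : V}
    (hxy : F.Adj x y) (hab : F.Adj a b)
    (hxa : ¬ F.Reachable x a) (hxw : ¬ F.Reachable x w) (haw : ¬ F.Reachable a w)
    (hal : (del F a b).Reachable a l) (hbz : (del F a b).Reachable b z)
    (hyz : (del F x y).Reachable y z')
    (hs1 : rc F a + rc F w < rc F x)
    (hs2 : rc (del F a b) a + rc (del F x y) y < rc F x) :
    wt (del (del F x y ⊔ edge z' l) a b ⊔ edge z w) < wt F := by
  have hsp := rc_split hF hxy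
  have hspa := rc_split hF hab
  have hp1 := rc_pos (del F x y) x
  have hp2 := rc_pos (del F x y) y
  have hp3 := rc_pos (del F a b) a
  have hp4 := rc_pos (del F a b) b
  have hnr := not_reach_del hF hxy
  have hnra := not_reach_del hF hab
  have hFaz : F.Reachable a z := (Adj.reachable hab).trans (hbz.mono del_le)
  have hFal : F.Reachable a l := hal.mono del_le
  have hFxz' : F.Reachable x z' := (Adj.reachable hxy).trans (hyz.mono del_le)
  have hFab : F.Reachable a b := Adj.reachable hab
  have hFxy : F.Reachable x y := Adj.reachable hxy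
  have hadj : ∀ p q, (del (del F x y ⊔ edge z' l) a b ⊔ edge z w).Adj p q →
      ((del F x y).Adj p q ∧ (del F a b).Adj p q) ∨
      ((p = z' ∧ q = l) ∨ (p = l ∧ q = z')) ∨ ((p = z ∧ q = w) ∨ (p = w ∧ q = z)) := by
    intro p q hpq
    rw [sup_adj, del_adj, sup_adj, edge_adj, edge_adj] at hpq
    rcases hpq with ⟨hpq | hpq, h2⟩ | hpq
    · exact Or.inl ⟨hpq, del_adj.2 ⟨del_le hpq, h2⟩⟩
    · exact Or.inr (Or.inl hpq.1)
    · exact Or.inr (Or.inr hpq.1)
  apply wt_lt (x := x)
    (S := {u | F.Reachable x u} ∪ ({u | F.Reachable a u} ∪ {u | F.Reachable w u}))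
  · intro p q hpq hp
    exact hp.imp (cls_adj hpq) (Or.imp (cls_adj hpq) (cls_adj hpq))
  · exact Or.inl (Reachable.refl _)
  · intro p q hpq hp
    rcases hadj p q hpq with h1 | (⟨h1, -⟩ | ⟨h1, -⟩) | (⟨h1, -⟩ | ⟨h1, -⟩)
    · exact del_le h1.1
    · exact absurd (Or.inl (h1 ▸ hFxz')) hp
    · exact absurd (Or.inr (Or.inl (h1 ▸ hFal))) hp
    · exact absurd (Or.inr (Or.inl (h1 ▸ hFaz))) hp
    · exact absurd (Or.inr (Or.inr (h1 ▸ Reachable.refl _))) hp
  · have hX2 : ∀ v, (del F x y).Reachable y v ∨ (del F a b).Reachable a v →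
        ∃ X : Set V, v ∈ X ∧
          (∀ p q, (del (del F x y ⊔ edge z' l) a b ⊔ edge z w).Adj p q → p ∈ X → q ∈ X) ∧
          X.ncard < rc F x := by
      intro v hv
      refine ⟨{u | (del F x y).Reachable y u} ∪ {u | (del F a b).Reachable a u}, hv, ?_, ?_⟩
      · intro p q hpq hp
        rcases hadj p q hpq with h1 | (⟨-, h1⟩ | ⟨-, h1⟩) | (⟨h1, -⟩ | ⟨h1, -⟩)
        · exact hp.imp (cls_adj h1.1) (cls_adj h1.2)
        · exact Or.inr (h1 ▸ hal)
        · exact Or.inl (h1 ▸ hyz)
        · exfalso
          subst h1
          rcases hp with h2 | h2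
          · exact hxa (hFxy.trans ((Reachable.mono del_le h2).trans hFaz.symm))
          · exact hnra (Reachable.trans h2 hbz.symm)
        · exfalso
          subst h1
          rcases hp with h2 | h2
          · exact hxw (hFxy.trans (Reachable.mono del_le h2))
          · exact haw (Reachable.mono del_le h2)
      · have h3 := Set.ncard_union_le {u | (del F x y).Reachable y u}
          {u | (del F a b).Reachable a u}
        have h4 : {u | (del F x y).Reachable y u}.ncard = rc (del F x y) y := rfl
        have h5 : {u | (del F a b).Reachable a u}.ncard = rc (del F a b) a := rfl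
        omega
    have hX3 : ∀ v, (del F a b).Reachable b v ∨ F.Reachable w v →
        ∃ X : Set V, v ∈ X ∧
          (∀ p q, (del (del F x y ⊔ edge z' l) a b ⊔ edge z w).Adj p q → p ∈ X → q ∈ X) ∧
          X.ncard < rc F x := by
      intro v hv
      refine ⟨{u | (del F a b).Reachable b u} ∪ {u | F.Reachable w u}, hv, ?_, ?_⟩
      · intro p q hpq hp
        rcases hadj p q hpq with h1 | (⟨h1, -⟩ | ⟨h1, -⟩) | (⟨-, h1⟩ | ⟨-, h1⟩)
        · exact hp.imp (cls_adj h1.2) (cls_adj (del_le h1.1))
        · exfalso
          subst h1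
          rcases hp with h2 | h2
          · exact hxa (hFxz'.trans ((hFab.trans (Reachable.mono del_le h2)).symm))
          · exact hxw (hFxz'.trans (Reachable.symm h2))
        · exfalso
          subst h1
          rcases hp with h2 | h2
          · exact hnra (hal.trans (Reachable.symm h2))
          · exact haw (hFal.trans (Reachable.symm h2))
        · exact Or.inr (h1 ▸ Reachable.refl _)
        · exact Or.inl (h1 ▸ hbz)
      · have h3 := Set.ncard_union_le {u | (del F a b).Reachable b u} {u | F.Reachable w u}
        have h4 : {u | (del F a b).Reachable b u}.ncard = rc (del F a b) b := rfl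
        have h5 : {u | F.Reachable w u}.ncard = rc F w := rfl
        omega
    rintro v (hv | hv | hv)
    · rcases reach_cases (y := y) hv with h1 | h1
      · refine ⟨{u | (del F x y).Reachable x u}, h1, ?_, ?_⟩
        · intro p q hpq hp
          rcases hadj p q hpq with h2 | (⟨h2, -⟩ | ⟨h2, -⟩) | (⟨h2, -⟩ | ⟨h2, -⟩)
          · exact cls_adj h2.1 hp
          · exfalso
            subst h2
            exact hnr (Reachable.trans hp hyz.symm)
          · exfalso
            subst h2
            exact hxa ((Reachable.mono del_le hp).trans hFal.symm)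
          · exfalso
            subst h2
            exact hxa ((Reachable.mono del_le hp).trans hFaz.symm)
          · exfalso
            subst h2
            exact hxw (Reachable.mono del_le hp)
        · have h4 : {u | (del F x y).Reachable x u}.ncard = rc (del F x y) x := rfl
          omega
      · exact hX2 v (Or.inl h1)
    · rcases reach_cases (y := b) hv with h1 | h1
      · exact hX2 v (Or.inr h1)
      · exact hX3 v (Or.inl h1)
    · exact hX3 v (Or.inr hv)
  · have h2 := Set.ncard_union_le {u | F.Reachable x u}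
      ({u | F.Reachable a u} ∪ {u | F.Reachable w u})
    have h3 := Set.ncard_union_le {u | F.Reachable a u} {u | F.Reachable w u}
    have h4 : {u | F.Reachable a u}.ncard = rc F a := rfl
    have h5 : {u | F.Reachable w u}.ncard = rc F w := rfl
    have h6 : {u | F.Reachable x u}.ncard = rc F x := rfl
    omega

end Pool.Agent.H94.ND
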