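import Pool.Agent.H94.ND.Defs

/-!
# Elementary facts on forests: crossing edges, re-entering edges, sizes of components
-/

set_option linter.unusedSectionVars false

namespace Pool.Agent.H94.ND

open SimpleGraph

variable {V : Type}

/-- delete the edge `xy`. -/
def del (H : SimpleGraph V) (x y : V) : SimpleGraph V := H.deleteEdges {s(x, y)}

theorem del_adj {H : SimpleGraph V} {x y u v : V} :
    (del H x y).Adj u v ↔ H.Adj u v ∧ s(u, v) ≠ s(x, y) := by
  simp [del, deleteEdges_adj]

theorem del_le {H : SimpleGraph V} {x y : V} : del H x y ≤ H := fun _ _ h => (del_adj.1 h).1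

theorem del_comm (H : SimpleGraph V) (x y : V) : del H x y = del H y x := by
  rw [del, del, Sym2.eq_swap]

/-- the graph `H` inside `S`. -/
def rs (H : SimpleGraph V) (S : Set V) : SimpleGraph V where
  Adj u v := H.Adj u v ∧ u ∈ S ∧ v ∈ S
  symm := ⟨fun _ _ h => ⟨h.1.symm, h.2.2, h.2.1⟩⟩
  loopless := ⟨fun u h => H.loopless.irrefl u h.1⟩

theorem closed_reach {H : SimpleGraph V} {S : Set V} (hS : ∀ a b, H.Adj a b → a ∈ S → b ∈ S)
    {u v : V} (h : H.Reachable u v) (hu : u ∈ S) : v ∈ S := by
  obtain ⟨p⟩ := h
  induction p with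
  | nil => exact hu
  | cons h _ ih => exact ih (hS _ _ h hu)

theorem reach_del_of_walk {H : SimpleGraph V} {v : V} (w : V) {a b : V} (q : H.Walk a b)
    (hv : v ∉ q.support) : (del H v w).Reachable a b := by
  induction q with
  | nil => exact Reachable.refl _
  | @cons a a' b h q ih =>
    rw [Walk.support_cons, List.mem_cons, not_or] at hv
    refine Reachable.trans (Adj.reachable ?_) (ih hv.2)
    rw [del_adj]
    refine ⟨h, fun he => ?_⟩
    have hm : v ∈ s(a, a') := he ▸ Sym2.mem_mk_left v w
    rcases Sym2.mem_iff.1 hm with h1 | h1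
    · exact hv.1 h1
    · exact hv.2 (h1 ▸ q.start_mem_support)

private theorem crossing_aux {H : SimpleGraph V} {U : Set V} {v c : V} (p : H.Walk v c) :
    c ∉ U → p.IsPath → v ∈ U →
      ∃ y x, y ∈ p.support ∧ x ∈ p.support ∧ H.Adj y x ∧ y ∈ U ∧ x ∉ U ∧
        (del H y x).Reachable v y ∧ (del H y x).Reachable x c := by
  induction p with
  | nil => exact fun hc _ hv => absurd hv hc
  | @cons v v' c h q ih =>
    intro hc hp hv
    rw [Walk.cons_isPath_iff] at hp
    by_cases hv' : v' ∈ U
    · obtain ⟨y, x, h1, h2, h3, h4, h5, h6, h7⟩ := ih hc hp.1 hv'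
      refine ⟨y, x, by simp [h1], by simp [h2], h3, h4, h5, ?_, h7⟩
      refine Reachable.trans (Adj.reachable ?_) h6
      rw [del_adj]
      refine ⟨h, fun he => ?_⟩
      have hm : v ∈ s(y, x) := he ▸ Sym2.mem_mk_left v v'
      rcases Sym2.mem_iff.1 hm with h8 | h8
      · exact hp.2 (h8 ▸ h1)
      · exact hp.2 (h8 ▸ h2)
    · exact ⟨v, v', by simp, by simp, h, hv, hv', Reachable.refl _,
        reach_del_of_walk _ q hp.2⟩

/-- a crossing edge which separates the two ends. -/
theorem crossing {H : SimpleGraph V} {U : Set V} {z c : V} (h : H.Reachable z c)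
    (hz : z ∈ U) (hc : c ∉ U) :
    ∃ y x, H.Adj y x ∧ y ∈ U ∧ x ∉ U ∧ (del H y x).Reachable z y ∧ (del H y x).Reachable x c := by
  obtain ⟨p, hp⟩ := h.exists_isPath
  obtain ⟨y, x, -, -, h3, h4, h5, h6, h7⟩ := crossing_aux p hc hp hz
  exact ⟨y, x, h3, h4, h5, h6, h7⟩

private theorem reentry_aux {H : SimpleGraph V} {S : Set V} {v c : V} (p : H.Walk v c) :
    p.IsPath → v ∈ S → (rs H S).Reachable v c ∨
      ∃ z w, H.Adj z w ∧ z ∈ S ∧ w ∉ S ∧ (del H z w).Reachable w c := by
  induction p with
  | nil => exact fun _ _ => Or.inl (Reachable.refl _)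
  | @cons v v' c h q ih =>
    intro hp hv
    rw [Walk.cons_isPath_iff] at hp
    by_cases hv' : v' ∈ S
    · rcases ih hp.1 hv' with h1 | h1
      · exact Or.inl (Reachable.trans (Adj.reachable ⟨h, hv, hv'⟩) h1)
      · exact Or.inr h1
    · exact Or.inr ⟨v, v', h, hv, hv', reach_del_of_walk _ q hp.2⟩

/-- a re-entering edge. -/
theorem reentry {H : SimpleGraph V} {S : Set V} {c v : V} (h : H.Reachable v c) (hv : v ∈ S)
    (hn : ¬ (rs H S).Reachable v c) :
    ∃ z w, H.Adj z w ∧ z ∈ S ∧ w ∉ S ∧ (del H z w).Reachable w c := by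
  obtain ⟨p, hp⟩ := h.exists_isPath
  rcases reentry_aux p hp hv with h1 | h1
  · exact absurd h1 hn
  · exact h1

theorem not_reach_del {H : SimpleGraph V} (hH : H.IsAcyclic) {x y : V} (h : H.Adj x y) :
    ¬ (del H x y).Reachable x y := by
  have h1 := isAcyclic_iff_forall_adj_isBridge.1 hH h
  rw [isBridge_iff] at h1
  exact h1

/-- the two sides of an edge. -/
theorem reach_cases {H : SimpleGraph V} {x y u : V} (h : H.Reachable x u) :
    (del H x y).Reachable x u ∨ (del H x y).Reachable y u := by
  by_contra hn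
  rw [not_or] at hn
  have hS : ∀ a b, H.Adj a b →
      a ∈ {t | (del H x y).Reachable x t ∨ (del H x y).Reachable y t} →
      b ∈ {t | (del H x y).Reachable x t ∨ (del H x y).Reachable y t} := by
    intro a b hab ha
    by_cases he : s(a, b) = s(x, y)
    · have hm : b ∈ s(x, y) := he ▸ Sym2.mem_mk_right a b
      rcases Sym2.mem_iff.1 hm with h1 | h1
      · exact Or.inl (h1 ▸ Reachable.refl _)
      · exact Or.inr (h1 ▸ Reachable.refl _)
    · have h1 : (del H x y).Reachable a b := Adj.reachable (del_adj.2 ⟨hab, he⟩)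
      exact ha.imp (fun h2 => h2.trans h1) (fun h2 => h2.trans h1)
  exact (closed_reach hS h (Or.inl (Reachable.refl _))).elim hn.1 hn.2

section fin

variable [Finite V]

theorem rc_congr {H : SimpleGraph V} {u v : V} (h : H.Reachable u v) : rc H u = rc H v := by
  unfold rc
  congr 1
  ext t
  exact ⟨fun h1 => h.symm.trans h1, fun h1 => h.trans h1⟩

theorem rc_pos (H : SimpleGraph V) (v : V) : 1 ≤ rc H v := by
  rw [Nat.one_le_iff_ne_zero, rc, Ne, Set.ncard_eq_zero (Set.toFinite _)]
  exact Set.Nonempty.ne_empty ⟨v, Reachable.refl _⟩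

theorem rc_split {H : SimpleGraph V} (hH : H.IsAcyclic) {x y : V} (h : H.Adj x y) :
    rc H x = rc (del H x y) x + rc (del H x y) y := by
  unfold rc
  rw [← Set.ncard_union_eq _ (Set.toFinite _) (Set.toFinite _)]
  · congr 1
    ext u
    constructor
    · exact fun h1 => reach_cases h1
    · rintro (h1 | h1)
      · exact h1.mono del_le
      · exact (Adj.reachable h).trans (h1.mono del_le)
  · rw [Set.disjoint_left]
    intro u h1 h2
    exact not_reach_del hH h (Reachable.trans h1 (Reachable.symm h2))

/-- the centroid of a component. -/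
theorem centroid {H : SimpleGraph V} (hH : H.IsAcyclic) (x0 : V) :
    ∃ c, H.Reachable x0 c ∧ ∀ x y, H.Adj x y → (del H x y).Reachable x c →
      rc (del H x y) y ≤ rc (del H x y) x := by
  classical
  by_cases hex : ∃ x y, H.Adj x y ∧ H.Reachable x0 y ∧ rc (del H x y) x < rc (del H x y) y
  · have hex' : ∃ n, ∃ x y, H.Adj x y ∧ H.Reachable x0 y ∧
        rc (del H x y) x < rc (del H x y) y ∧ rc (del H x y) y = n := by
      obtain ⟨x, y, h1, h2, h3⟩ := hex
      exact ⟨_, x, y, h1, h2, h3, rfl⟩
    obtain ⟨x, y, h1, h2, h3, h4⟩ := Nat.find_spec hex'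
    have hmin := fun n (hn : n < Nat.find hex') => Nat.find_min hex' hn
    refine ⟨y, h2, ?_⟩
    intro p q hpq hy
    by_contra hlt
    push Not at hlt
    have hr0 : H.Reachable x0 q :=
      h2.trans ((hy.mono del_le).symm.trans (Adj.reachable hpq))
    have hA : H.Reachable y q := (hy.mono del_le).symm.trans (Adj.reachable hpq)
    -- the edges are different
    have hne : s(p, q) ≠ s(x, y) := by
      intro he
      rcases Sym2.eq_iff.1 he with ⟨h5, h6⟩ | ⟨h5, h6⟩
      · subst h5 h6
        exact not_reach_del hH hpq hy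
      · subst h5 h6
        rw [del_comm] at hlt
        omega
    -- y is not on the side of q
    have hyq : ¬ (del H p q).Reachable q y := by
      intro h5
      exact not_reach_del hH hpq (hy.trans h5.symm)
    have hxq : ¬ (del H p q).Reachable q x := by
      intro h5
      exact hyq (h5.trans (Adj.reachable (del_adj.2 ⟨h1, fun h6 => hne h6.symm⟩)))
    -- the side of q is connected in del H x y
    have hcl : ∀ v, (del H p q).Reachable q v → (del H x y).Reachable q v := by
      intro v hv
      have hS : ∀ a b, (del H p q).Adj a b →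
          a ∈ {t | (del H p q).Reachable q t ∧ (del H x y).Reachable q t} →
          b ∈ {t | (del H p q).Reachable q t ∧ (del H x y).Reachable q t} := by
        intro a b hab ha
        refine ⟨ha.1.trans (Adj.reachable hab), ha.2.trans (Adj.reachable ?_)⟩
        rw [del_adj]
        refine ⟨(del_adj.1 hab).1, fun he => ?_⟩
        have hm : a ∈ s(x, y) := he ▸ Sym2.mem_mk_left a b
        rcases Sym2.mem_iff.1 hm with h5 | h5
        · exact hxq (h5 ▸ ha.1)
        · exact hyq (h5 ▸ ha.1)
      exact (closed_reach hS hv ⟨Reachable.refl _, Reachable.refl _⟩).2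
    -- sizes
    have hs1 := rc_split hH h1
    have hs2 := rc_split hH hpq
    have hs3 : rc H x = rc H p :=
      rc_congr ((Adj.reachable h1).trans (hA.trans (Adj.reachable hpq.symm)))
    -- the side of q meets the side of y
    have hmeet : (del H x y).Reachable y q := by
      by_contra hnot
      have hsub : {u | (del H p q).Reachable q u} ⊆ {u | (del H x y).Reachable x u} := by
        intro u hu
        have h6 := hcl u hu
        have h7 : H.Reachable x u :=
          (Adj.reachable h1).trans (hA.trans (h6.mono del_le))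
        rcases reach_cases (y := y) h7 with h8 | h8
        · exact h8
        · exact absurd (h8.trans h6.symm) hnot
      have h9 := Set.ncard_le_ncard hsub (Set.toFinite _)
      have h10 : rc (del H p q) q ≤ rc (del H x y) x := h9
      omega
    have hsub : {u | (del H p q).Reachable q u} ⊂ {u | (del H x y).Reachable y u} := by
      refine ⟨fun u hu => hmeet.trans (hcl u hu), fun h6 => ?_⟩
      exact hyq (h6 (Reachable.refl _ : (del H x y).Reachable y y))
    have h9 : rc (del H p q) q < rc (del H x y) y := Set.ncard_lt_ncard hsub (Set.toFinite _)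
    exact hmin _ (h4 ▸ h9) ⟨p, q, hpq, hr0, hlt, rfl⟩
  · push Not at hex
    refine ⟨x0, Reachable.refl _, ?_⟩
    intro x y hxy hc
    exact hex x y hxy ((hc.mono del_le).symm.trans (Adj.reachable hxy))

end fin

end Pool.Agent.H94.ND
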