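import Pool.Agent.H94.ND.Graph

/-!
# The potential, the exchange of two edges, and counting edges inside vertex sets
-/

set_option linter.unusedSectionVars false

namespace Pool.Agent.H94.ND

open SimpleGraph

variable {V : Type} [Fintype V]

/-- the potential. -/
noncomputable def wt (H : SimpleGraph V) : ℕ := ∑ v : V, 2 ^ rc H v

theorem rc_le_of_closed {H : SimpleGraph V} {X : Set V} {v : V} (hv : v ∈ X)
    (hX : ∀ a b, H.Adj a b → a ∈ X → b ∈ X) : rc H v ≤ X.ncard :=
  Set.ncard_le_ncard (fun _ hu => closed_reach hX hu hv) (Set.toFinite _)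

theorem wt_lt {F F' : SimpleGraph V} {x : V} {S : Set V}
    (hS : ∀ a b, F.Adj a b → a ∈ S → b ∈ S) (hx : x ∈ S)
    (hout : ∀ a b, F'.Adj a b → a ∉ S → F.Adj a b)
    (hsm : ∀ v ∈ S, ∃ X : Set V, v ∈ X ∧ (∀ a b, F'.Adj a b → a ∈ X → b ∈ X) ∧
      X.ncard < rc F x)
    (hc : S.ncard < 2 * rc F x) : wt F' < wt F := by
  classical
  set N := rc F x with hN
  have hN1 : 1 ≤ N := rc_pos F x
  set A : Set V := {u | F.Reachable x u} with hA
  have hAS : A ⊆ S := fun u hu => closed_reach hS hu hx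
  have h1 : ∑ v ∈ S.toFinset, 2 ^ rc F' v ≤ S.toFinset.card * 2 ^ (N - 1) := by
    apply Finset.sum_le_card_nsmul
    intro v hv
    obtain ⟨X, hvX, hX, hlt⟩ := hsm v (Set.mem_toFinset.1 hv)
    have h2 := rc_le_of_closed hvX hX
    exact Nat.pow_le_pow_right (by norm_num) (by omega)
  have h2 : A.toFinset.card * 2 ^ N ≤ ∑ v ∈ S.toFinset, 2 ^ rc F v := by
    refine le_trans ?_ (Finset.sum_le_sum_of_subset (Set.toFinset_subset_toFinset.2 hAS))
    have h3 : ∀ v ∈ A.toFinset, 2 ^ N ≤ 2 ^ rc F v := by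
      intro v hv
      have h4' : v ∈ A := Set.mem_toFinset.1 hv
      have h4 : F.Reachable x v := h4'
      rw [hN, rc_congr h4]
    exact Finset.card_nsmul_le_sum _ _ _ h3
  have h3 : ∑ v ∈ S.toFinsetᶜ, 2 ^ rc F' v ≤ ∑ v ∈ S.toFinsetᶜ, 2 ^ rc F v := by
    apply Finset.sum_le_sum
    intro v hv
    have hv' : v ∉ S := by simpa using hv
    refine Nat.pow_le_pow_right (by norm_num) ?_
    apply rc_le_of_closed (X := {u | F.Reachable v u}) (Reachable.refl _)
    intro a b hab ha
    have haS : a ∉ S := by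
      intro h4
      exact hv' (closed_reach hS (Reachable.symm ha) h4)
    exact Reachable.trans ha (Adj.reachable (hout a b hab haS))
  have h4 : S.toFinset.card = S.ncard := (Set.ncard_eq_toFinset_card' S).symm
  have h5 : A.toFinset.card = N := (Set.ncard_eq_toFinset_card' A).symm
  unfold wt
  rw [← Finset.sum_add_sum_compl S.toFinset, ← Finset.sum_add_sum_compl S.toFinset]
  have h6 : S.toFinset.card * 2 ^ (N - 1) < A.toFinset.card * 2 ^ N := by
    rw [h4, h5]
    have h7 : 2 ^ N = 2 * 2 ^ (N - 1) := by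
      rw [← pow_succ']
      congr 1
      omega
    rw [h7, ← mul_assoc, mul_comm N 2]
    exact Nat.mul_lt_mul_of_pos_right hc (by positivity)
  omega

theorem exch {G : SimpleGraph V} {k : ℕ} {φ : Sym2 V → Fin (k + 1)} (hv : Valid G φ)
    {i : Fin (k + 1)} (hi : i ≠ Fin.last k) {x y z w : V}
    (hxy : (cl G φ (Fin.last k)).Adj x y) (hzw : (cl G φ i).Adj z w)
    (h1 : ¬ (del (cl G φ i) z w).Reachable x y)
    (h2 : ¬ (del (cl G φ (Fin.last k)) x y).Reachable z w) :
    ∃ φ' : Sym2 V → Fin (k + 1), Valid G φ' ∧ nF G φ' ≤ nF G φ ∧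
      cl G φ' (Fin.last k) = del (cl G φ (Fin.last k)) x y ⊔ edge z w ∧
      cl G φ' i = del (cl G φ i) z w ⊔ edge x y ∧
      ∀ j, j ≠ i → j ≠ Fin.last k → cl G φ' j = cl G φ j := by
  classical
  have hne : s(x, y) ≠ s(z, w) := by
    intro he
    have h3 := hxy.2
    rw [he, hzw.2] at h3
    exact hi h3
  let φ' : Sym2 V → Fin (k + 1) :=
    fun e => if e = s(x, y) then i else if e = s(z, w) then Fin.last k else φ e
  have hF : cl G φ' (Fin.last k) = del (cl G φ (Fin.last k)) x y ⊔ edge z w := by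
    ext a b
    rw [sup_adj, del_adj, cl_adj, cl_adj, edge_adj]
    simp only [φ']
    by_cases e1 : s(a, b) = s(x, y)
    · rw [if_pos e1]
      constructor
      · rintro ⟨-, h3⟩
        exact absurd h3 hi
      · rintro (h3 | h3)
        · exact absurd e1 h3.2
        · exfalso
          apply hne
          rw [← e1, Sym2.eq_iff]
          exact h3.1
    · rw [if_neg e1]
      by_cases e2 : s(a, b) = s(z, w)
      · rw [if_pos e2]
        constructor
        · rintro ⟨h3, -⟩
          exact Or.inr ⟨Sym2.eq_iff.1 e2, h3.ne⟩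
        · rintro (h3 | h3)
          · exact ⟨h3.1.1, rfl⟩
          · refine ⟨?_, rfl⟩
            rw [← mem_edgeSet, e2]
            exact hzw.1
      · rw [if_neg e2]
        constructor
        · rintro ⟨h3, h4⟩
          exact Or.inl ⟨⟨h3, h4⟩, e1⟩
        · rintro (h3 | h3)
          · exact h3.1
          · exact absurd (Sym2.eq_iff.2 h3.1) e2
  have hT : cl G φ' i = del (cl G φ i) z w ⊔ edge x y := by
    ext a b
    rw [sup_adj, del_adj, cl_adj, cl_adj, edge_adj]
    simp only [φ']
    by_cases e1 : s(a, b) = s(x, y)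
    · rw [if_pos e1]
      constructor
      · rintro ⟨h3, -⟩
        exact Or.inr ⟨Sym2.eq_iff.1 e1, h3.ne⟩
      · rintro (h3 | h3)
        · exact ⟨h3.1.1, rfl⟩
        · refine ⟨?_, rfl⟩
          rw [← mem_edgeSet, e1]
          exact hxy.1
    · rw [if_neg e1]
      by_cases e2 : s(a, b) = s(z, w)
      · rw [if_pos e2]
        constructor
        · rintro ⟨-, h3⟩
          exact absurd h3.symm hi
        · rintro (h3 | h3)
          · exact absurd e2 h3.2
          · exact absurd (Sym2.eq_iff.2 h3.1) e1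
      · rw [if_neg e2]
        constructor
        · rintro ⟨h3, h4⟩
          exact Or.inl ⟨⟨h3, h4⟩, e2⟩
        · rintro (h3 | h3)
          · exact h3.1
          · exact absurd (Sym2.eq_iff.2 h3.1) e1
  have hO : ∀ j, j ≠ i → j ≠ Fin.last k → cl G φ' j = cl G φ j := by
    intro j hj1 hj2
    ext a b
    rw [cl_adj, cl_adj]
    simp only [φ']
    by_cases e1 : s(a, b) = s(x, y)
    · rw [if_pos e1, e1]
      constructor
      · rintro ⟨-, h3⟩
        exact absurd h3.symm hj1
      · rintro ⟨-, h3⟩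
        rw [hxy.2] at h3
        exact absurd h3.symm hj2
    · rw [if_neg e1]
      by_cases e2 : s(a, b) = s(z, w)
      · rw [if_pos e2, e2]
        constructor
        · rintro ⟨-, h3⟩
          exact absurd h3.symm hj2
        · rintro ⟨-, h3⟩
          rw [hzw.2] at h3
          exact absurd h3.symm hj1
      · rw [if_neg e2]
  refine ⟨φ', ?_, ?_, hF, hT, hO⟩
  · intro j
    by_cases hj : j = Fin.last k
    · rw [hj, hF]
      exact IsAcyclic.sup_edge_of_not_reachable h2 (IsAcyclic.anti del_le (hv _))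
    · by_cases hj' : j = i
      · rw [hj', hT]
        exact IsAcyclic.sup_edge_of_not_reachable h1 (IsAcyclic.anti del_le (hv _))
      · rw [hO j hj' hj]
        exact hv j
  · unfold nF
    rw [hF]
    have h3 : (del (cl G φ (Fin.last k)) x y ⊔ edge z w).edgeSet ⊆
        insert s(z, w) ((cl G φ (Fin.last k)).edgeSet \ {s(x, y)}) := by
      intro e
      induction e using Sym2.ind with
      | _ a b =>
        rw [mem_edgeSet, sup_adj, del_adj, edge_adj]
        rintro (h3 | h3)
        · exact Or.inr ⟨h3.1, h3.2⟩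
        · exact Or.inl (Sym2.eq_iff.2 h3.1)
    have h4 := Set.ncard_le_ncard h3 (Set.toFinite _)
    have h5 := Set.ncard_insert_le s(z, w) ((cl G φ (Fin.last k)).edgeSet \ {s(x, y)})
    have h6 := Set.ncard_sdiff_singleton_add_one (a := s(x, y))
      (s := (cl G φ (Fin.last k)).edgeSet) hxy (Set.toFinite _)
    omega

theorem eIn_le_of_le {H H' : SimpleGraph V} (h : H ≤ H') (S : Set V) : eIn H S ≤ eIn H' S := by
  refine Set.ncard_le_ncard ?_ (Set.toFinite _)
  exact fun e he => ⟨edgeSet_mono h he.1, he.2⟩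

theorem eIn_add {H : SimpleGraph V} {S T W : Set V} (hd : Disjoint S T) (hS : S ⊆ W)
    (hT : T ⊆ W) : eIn H S + eIn H T ≤ eIn H W := by
  unfold eIn
  rw [← Set.ncard_union_eq _ (Set.toFinite _) (Set.toFinite _)]
  · refine Set.ncard_le_ncard ?_ (Set.toFinite _)
    rintro e (he | he)
    · exact ⟨he.1, fun v hv => hS (he.2 v hv)⟩
    · exact ⟨he.1, fun v hv => hT (he.2 v hv)⟩
  · rw [Set.disjoint_left]
    intro e h1 h2
    induction e using Sym2.ind with
    | _ a b =>
      exact Set.disjoint_left.1 hd (h1.2 a (Sym2.mem_mk_left a b)) (h2.2 a (Sym2.mem_mk_left a b))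

theorem le_eIn_of_conn {H : SimpleGraph V} {S : Set V} {c : V} (hc : c ∈ S)
    (h : ∀ v ∈ S, (rs H S).Reachable v c) : S.ncard ≤ eIn H S + 1 := by
  classical
  have hconn : (H.induce S).Connected := by
    have h1 : ∀ v : V, (rs H S).Reachable v c → ∀ hv : v ∈ S,
        (H.induce S).Reachable ⟨v, hv⟩ ⟨c, hc⟩ := by
      intro v hr
      obtain ⟨p⟩ := hr
      induction p with
      | nil => exact fun _ => Reachable.refl _
      | @cons a b c' hab q ih =>
        intro hv
        have hb : b ∈ S := hab.2.2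
        refine Reachable.trans (Adj.reachable ?_) (ih hc h hb)
        exact hab.1
    have : Nonempty S := ⟨⟨c, hc⟩⟩
    refine ⟨fun u v => ?_⟩
    exact (h1 u.1 (h u.1 u.2) u.2).trans (h1 v.1 (h v.1 v.2) v.2).symm
  have h1 := hconn.card_vert_le_card_edgeSet_add_one
  have h2 : Nat.card S = S.ncard := rfl
  have h3 : Nat.card (H.induce S).edgeSet ≤ eIn H S := by
    have h4 : Nat.card (H.induce S).edgeSet = (H.induce S).edgeSet.ncard := rfl
    rw [h4, eIn, ← Set.ncard_image_of_injective (H.induce S).edgeSet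
      (Sym2.map.injective (Subtype.val_injective (p := fun v => v ∈ S)))]
    refine Set.ncard_le_ncard ?_ (Set.toFinite _)
    rintro e ⟨f, hf, rfl⟩
    induction f using Sym2.ind with
    | _ a b =>
      refine ⟨?_, ?_⟩
      · exact hf
      · intro v hv
        rw [Sym2.map_mk, Sym2.mem_iff] at hv
        rcases hv with h5 | h5
        · exact h5 ▸ a.2
        · exact h5 ▸ b.2
  omega

theorem rc_le_eIn (H : SimpleGraph V) (x : V) : rc H x ≤ eIn H {u | H.Reachable x u} + 1 := by
  refine le_eIn_of_conn (c := x) (Reachable.refl _) ?_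
  intro v hv
  obtain ⟨p⟩ := hv
  have h1 : ∀ t, H.Reachable x t → (rs H {u | H.Reachable x u}).Reachable x t := by
    intro t ht
    have hS : ∀ a b, H.Adj a b →
        a ∈ {t | H.Reachable x t ∧ (rs H {u | H.Reachable x u}).Reachable x t} →
        b ∈ {t | H.Reachable x t ∧ (rs H {u | H.Reachable x u}).Reachable x t} := by
      intro a b hab ha
      have hb : H.Reachable x b := ha.1.trans (Adj.reachable hab)
      exact ⟨hb, ha.2.trans (Adj.reachable ⟨hab, ha.1, hb⟩)⟩
    exact (closed_reach hS ht ⟨Reachable.refl _, Reachable.refl _⟩).2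
  exact (h1 v ⟨p⟩).symm

theorem eIn_colours {G X : SimpleGraph V} {k : ℕ} (φ : Sym2 V → Fin (k + 1)) (hX : X ≤ G)
    (S : Set V) (a b : ℕ) (ha : a ≤ eIn (cl G φ (Fin.last k) ⊓ X) S)
    (hb : ∀ i, i ≠ Fin.last k → b ≤ eIn (cl G φ i ⊓ X) S) : k * b + a ≤ eIn X S := by
  classical
  set E : Finset (Sym2 V) := (Set.toFinite {e | e ∈ X.edgeSet ∧ ∀ v ∈ e, v ∈ S}).toFinset with hE
  have h1 : eIn X S = E.card := by
    rw [eIn, Set.ncard_eq_toFinset_card _ (Set.toFinite _)]
  have h2 : ∀ i, eIn (cl G φ i ⊓ X) S = (E.filter (fun e => φ e = i)).card := by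
    intro i
    rw [eIn, Set.ncard_eq_toFinset_card _ (Set.toFinite _)]
    congr 1
    ext e
    rw [Set.Finite.mem_toFinset, Finset.mem_filter, hE, Set.Finite.mem_toFinset]
    induction e using Sym2.ind with
    | _ u v =>
      simp only [Set.mem_ofPred_eq, mem_edgeSet, inf_adj, cl_adj]
      constructor
      · rintro ⟨⟨⟨h3, h4⟩, h5⟩, h6⟩
        exact ⟨⟨h5, h6⟩, h4⟩
      · rintro ⟨⟨h5, h6⟩, h4⟩
        exact ⟨⟨⟨hX h5, h4⟩, h5⟩, h6⟩
  have h3 : E.card = ∑ i : Fin (k + 1), (E.filter (fun e => φ e = i)).card :=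
    Finset.card_eq_sum_card_fiberwise (fun e _ => Finset.mem_coe.2 (Finset.mem_univ (φ e)))
  rw [h1, h3, Fin.sum_univ_castSucc, ← h2]
  have h4 : k * b ≤ ∑ i : Fin k, (E.filter (fun e => φ e = i.castSucc)).card := by
    have h5 : ∀ i ∈ (Finset.univ : Finset (Fin k)),
        b ≤ (E.filter (fun e => φ e = i.castSucc)).card := by
      intro i _
      rw [← h2]
      exact hb _ (Fin.castSucc_lt_last i).ne
    have h6 := Finset.card_nsmul_le_sum _ _ _ h5
    simpa using h6
  omega

end Pool.Agent.H94.ND
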